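import Pool.Agent.Helper38.NS.Comp
import Pool.Graph.R_pool_sql_team_seeded_1acbe0a2.Y462.EI.Final

/-!
# Graphs of groups: from local homomorphisms to the class `C`

Owner helper38.
-/

set_option autoImplicit false

namespace Pool.Agent.Helper38.NS

open Matrix Monoid
open Pool.Agent.Y462.SS (Closed Wr)
open Pool.Agent.Y110.FJ (ClosedE)
open Pool.Agent.Y462.EI (MX cl)

theorem pi_mem (C : ∀ (G : Type) [Group G], Prop) (hC : Closed C) (J : Type) [Finite J] :
    ∀ (P : J → Type) [∀ j, Group (P j)], (∀ j, C (P j)) → C (∀ j, P j) := by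
  induction J using Finite.induction_empty_option with
  | @of_equiv α β e ih =>
    intro P _ h
    let f : (∀ j, P j) →* (∀ i, P (e i)) :=
      { toFun := fun a i => a (e i)
        map_one' := rfl
        map_mul' := fun _ _ => rfl }
    refine hC.of_injective _ _ f ?_ (ih _ fun i => h (e i))
    intro a b hab
    funext j
    obtain ⟨i, rfl⟩ := e.surjective j
    exact congrFun hab i
  | h_empty =>
    intro P _ h
    exact hC.of_injective _ _ (1 : (∀ j, P j) →* Multiplicative ℤ)
      (fun a b _ => Subsingleton.elim a b) hC.int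
  | @h_option α _ ih =>
    intro P _ h
    let f : (∀ j, P j) →* P none × (∀ i, P (some i)) :=
      { toFun := fun a => (a none, fun i => a (some i))
        map_one' := rfl
        map_mul' := fun _ _ => rfl }
    refine hC.of_injective _ _ f ?_ (hC.prod _ _ (h none) (ih _ fun i => h (some i)))
    intro a b hab
    funext j
    cases j with
    | none => exact congrArg Prod.fst hab
    | some i => exact congrFun (congrArg Prod.snd hab) i

section

variable (C : ∀ (G : Type) [Group G], Prop) (hC : ClosedE C)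
  {V E : Type} {G : V → Type} [∀ v, Group (G v)] (hG : ∀ v, C (G v)) (s t : E → V)
  (H : E → Type) [∀ e, Group (H e)]
  (σ : ∀ e, H e →* G (s e)) (τ : ∀ e, H e →* G (t e))

include hC hG in
/-- one homomorphism for each edge is enough -/
theorem assemble
    (hloc : ∀ F : Finset (Σ e, H e), ∀ e0 : E, ∃ (P : Type) (_ : Group P) (f : ∀ v, G v →* P)
      (y : E → P), C P ∧ (∀ e, ∀ h ∈ cl F e, y e * f (t e) (τ e h) = f (s e) (σ e h) * y e) ∧
      ∀ h ∈ cl F e0, f (s e0) (σ e0 h) = 1 → h = 1) :
    C (MX (fun e => (Monoid.CoprodI.of (i := t e)).comp (τ e))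
      (fun e => (Monoid.CoprodI.of (i := s e)).comp (σ e))) := by
  classical
  refine Pool.Agent.Y462.EI.graph C hC V E G hG s t H σ τ fun F => ?_
  let J : Type := ↥(F.image fun z => z.1)
  choose P hP f y hCP h1 h2 using fun e0 : J => hloc F e0.1
  refine ⟨∀ j : J, P j, inferInstance, fun v => MonoidHom.mk' (fun g j => f j v g) (by
    intro a b
    funext j
    exact map_mul _ _ _), fun e j => y j e, pi_mem C hC.base J P hCP, ?_⟩
  intro e h hh
  have h3 : (fun j => y j e) * (fun j => f j (t e) (τ e h)) = (fun j => f j (s e) (σ e h)) *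
      (fun j => y j e) := by
    funext j
    exact h1 j e h hh
  refine ⟨h3, fun h4 => ?_⟩
  by_cases he : e ∈ F.image fun z => z.1
  · have h5 := h1 ⟨e, he⟩ e h hh
    have h6 : f ⟨e, he⟩ (t e) (τ e h) = 1 := congrFun h4 ⟨e, he⟩
    rw [h6, mul_one] at h5
    exact h2 ⟨e, he⟩ h hh (mul_eq_right.1 h5.symm)
  · have h5 : cl F e ≤ ⊥ := by
      unfold cl
      rw [Subgroup.closure_le]
      intro z hz
      have hz' : (⟨e, z⟩ : Σ e, H e) ∈ F := hz
      exact (he (Finset.mem_image.2 ⟨⟨e, z⟩, hz', rfl⟩)).elim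
    exact Subgroup.mem_bot.1 (h5 hh)

end

section free

variable {E : Type} (B : E → Type)

theorem mem_part_mono {T T' : Finset (Σ e, B e)} (h : T ⊆ T') (e : E) : part B T e ≤ part B T' e := by
  unfold part
  apply Subgroup.closure_mono
  rintro _ ⟨b, hb, rfl⟩
  exact ⟨b, h hb, rfl⟩

theorem exists_part_one (e : E) (h : FreeGroup (B e)) : ∃ T : Finset (Σ e, B e), h ∈ part B T e := by
  classical
  induction h using FreeGroup.induction_on with
  | C1 => exact ⟨∅, one_mem _⟩
  | of b => exact ⟨{⟨e, b⟩}, Subgroup.subset_closure ⟨b, Finset.mem_singleton_self _, rfl⟩⟩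
  | inv_of b ih =>
    obtain ⟨T, hT⟩ := ih
    exact ⟨T, inv_mem hT⟩
  | mul x y hx hy =>
    obtain ⟨T, hT⟩ := hx
    obtain ⟨T', hT'⟩ := hy
    exact ⟨T ∪ T', mul_mem (mem_part_mono B Finset.subset_union_left _ hT)
      (mem_part_mono B Finset.subset_union_right _ hT')⟩

theorem exists_part (F : Finset (Σ e, FreeGroup (B e))) :
    ∃ T : Finset (Σ e, B e), ∀ e, cl F e ≤ part B T e := by
  classical
  choose T hT using fun z : (Σ e, FreeGroup (B e)) => exists_part_one B z.1 z.2
  refine ⟨F.biUnion T, fun e => ?_⟩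
  unfold cl
  rw [Subgroup.closure_le]
  intro h hh
  exact mem_part_mono B (Finset.subset_biUnion_of_mem T hh) _ (hT ⟨e, h⟩)

end free

/-- **graphs of groups with free edge groups: the criterion on finite covers** -/
theorem crit (C : ∀ (G : Type) [Group G], Prop) (hC : ClosedE C) (hL : ∀ n : ℕ, C (GL (Fin n) ℚ))
    {V E : Type} {G Q : V → Type} [∀ v, Group (G v)] [∀ v, Group (Q v)] (hG : ∀ v, C (G v))
    (hQ : ∀ v, IndepRelators (Q v)) (π : ∀ v, G v →* Q v) (s t : E → V) (B : E → Type)
    (σ : ∀ e, FreeGroup (B e) →* G (s e)) (τ : ∀ e, FreeGroup (B e) →* G (t e))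
    (hctrl : ∀ T e0, Ctrl π s t B σ τ T e0) :
    C (MX (fun e => (Monoid.CoprodI.of (i := t e)).comp (τ e))
      (fun e => (Monoid.CoprodI.of (i := s e)).comp (σ e))) := by
  apply assemble C hC hG s t (fun e => FreeGroup (B e)) σ τ
  intro F e0
  obtain ⟨T, hT⟩ := exists_part B F
  obtain ⟨P, hP, f, y, hCP, h1, h2⟩ := comp1 hQ π s t B σ τ C hC.base hL T e0 (hctrl T e0)
  exact ⟨P, hP, f, y, hCP, fun e h hh => h1 e h (hT e hh), fun h hh => h2 h (hT e0 hh)⟩

end Pool.Agent.Helper38.NS
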