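import Pool.Agent.Helper38.NS.ForestMain

/-!
# The criterion on cyclic covers: pairs of linear maps without common invariant subspaces

Owner helper38.
-/

set_option autoImplicit false

namespace Pool.Agent.Helper38.NS

open Matrix Monoid
open scoped TensorProduct DirectSum
open Pool.Agent.Y462.SS (Closed Wr)
open Pool.Agent.Y110.FJ (ClosedE)
open Pool.Agent.Y462.EI (MX cl)

section chain

variable {X M : Type} [AddCommGroup X] [Module ℚ X] [AddCommGroup M] [Module ℚ M]

/-- long chains vanish -/
theorem chain_zero (S T : X →ₗ[ℚ] M) (hS : Function.Injective S) (hT : Function.Injective T)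
    (hW : ∀ W : Submodule ℚ X, W.FG → W.map S = W.map T → W = ⊥)
    (U : Submodule ℚ X) [FiniteDimensional ℚ U] (d : ℕ) (hd : Module.finrank ℚ U ≤ d) (a : ℕ → X)
    (haU : ∀ j ≤ d, a j ∈ U) (ha : ∀ j < d, S (a j) = T (a (j + 1))) : ∀ j ≤ d, a j = 0 := by
  classical
  let Z : ℕ → Submodule ℚ X := fun j => Submodule.span ℚ (a '' Set.Iio j)
  have hfin : ∀ j, FiniteDimensional ℚ (Z j) := fun j =>
    FiniteDimensional.span_of_finite ℚ ((Set.finite_Iio j).image a)
  have hmem : ∀ i j, i < j → a i ∈ Z j := fun i j h => Submodule.subset_span ⟨i, h, rfl⟩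
  have hmono : ∀ j, Z j ≤ Z (j + 1) := fun j => Submodule.span_mono
    (Set.image_mono (Set.Iio_subset_Iio (Nat.le_succ j)))
  have hZU : ∀ j ≤ d + 1, Z j ≤ U := by
    intro j hj
    rw [Submodule.span_le]
    rintro _ ⟨i, hi, rfl⟩
    exact haU i (by have : i < j := hi; omega)
  obtain ⟨j, hjd, hj⟩ : ∃ j ≤ d, a j ∈ Z j := by
    by_contra h
    push Not at h
    have h1 : ∀ j ≤ d + 1, j ≤ Module.finrank ℚ (Z j) := by
      intro j
      induction j with
      | zero => intro _; exact Nat.zero_le _
      | succ j ih =>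
        intro hj
        have h2 : Z j < Z (j + 1) := by
          refine lt_of_le_of_ne (hmono j) fun he => h j (by omega) ?_
          rw [he]
          exact hmem j (j + 1) (Nat.lt_succ_self j)
        haveI := hfin (j + 1)
        have h3 := Submodule.finrank_lt_finrank_of_lt h2
        have h4 := ih (by omega)
        omega
    have h2 := h1 (d + 1) le_rfl
    have h3 := Submodule.finrank_mono (hZU (d + 1) le_rfl)
    omega
  have h1 : (Z j).map S ≤ (Z j).map T := by
    rw [Submodule.map_span, Submodule.span_le]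
    rintro _ ⟨_, ⟨i, hi, rfl⟩, rfl⟩
    have hi' : i < j := hi
    rw [ha i (by omega)]
    refine Submodule.mem_map_of_mem ?_
    rcases Nat.lt_or_ge (i + 1) j with h2 | h2
    · exact hmem _ _ h2
    · have : i + 1 = j := by omega
      rw [this]
      exact hj
  haveI := hfin j
  have h2 : (Z j).map S = (Z j).map T := by
    apply Submodule.eq_of_le_of_finrank_eq h1
    rw [← (Submodule.equivMapOfInjective S hS (Z j)).finrank_eq,
      ← (Submodule.equivMapOfInjective T hT (Z j)).finrank_eq]
  have h3 : Z j = ⊥ := hW (Z j) (by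
    exact (Submodule.fg_iff_finiteDimensional _).2 (hfin j)) h2
  have h4 : a 0 = 0 := by
    rcases Nat.eq_zero_or_pos j with h5 | h5
    · subst h5
      rw [h3] at hj
      exact (Submodule.mem_bot ℚ).1 hj
    · have h6 := hmem 0 j h5
      rw [h3] at h6
      exact (Submodule.mem_bot ℚ).1 h6
  intro i
  induction i with
  | zero => intro _; exact h4
  | succ i ih =>
    intro hi
    have h5 := ha i (by omega)
    rw [ih (by omega), map_zero] at h5
    exact hT (h5.symm.trans (map_zero T).symm)

/-- prescribed values on a linearly independent family -/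
theorem exists_functional {J : Type} (v : J → M) (hv : LinearIndependent ℚ v) (c : J → ℚ) :
    ∃ φ : M →ₗ[ℚ] ℚ, ∀ j, φ (v j) = c j := by
  obtain ⟨g, hg⟩ := LinearMap.exists_leftInverse_of_injective (Finsupp.linearCombination ℚ v)
    (LinearMap.ker_eq_bot.2 hv)
  refine ⟨(Finsupp.linearCombination ℚ c).comp g, fun j => ?_⟩
  have h1 : g (v j) = Finsupp.single j 1 := by
    have h2 := LinearMap.congr_fun hg (Finsupp.single j 1)
    simpa using h2
  change Finsupp.linearCombination ℚ c (g (v j)) = c j
  rw [h1]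
  simp

end chain

section homology

/-- rational first homology -/
abbrev H1 (Q : Type) [Group Q] : Type := ℚ ⊗[ℤ] Additive (Abelianization Q)

/-- the class of an element -/
noncomputable def cls {Q : Type} [Group Q] : Q →* Multiplicative (H1 Q) where
  toFun q := Multiplicative.ofAdd ((1 : ℚ) ⊗ₜ[ℤ] Additive.ofMul (Abelianization.of q))
  map_one' := by simp
  map_mul' a b := by
    rw [map_mul, ofMul_mul, TensorProduct.tmul_add, ofAdd_add]

variable {V E : Type} {G Q : V → Type} [∀ v, Group (G v)] [∀ v, Group (Q v)] [DecidableEq V]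
  (π : ∀ v, G v →* Q v) (B : E → Type)

/-- the map `⊕_e H_1(FreeGroup (B e); ℚ) → ⊕_v H_1(Q v; ℚ)` given by one of the ends of the edges -/
noncomputable def endMap (s : E → V) (σ : ∀ e, FreeGroup (B e) →* G (s e)) :
    ((Σ e, B e) →₀ ℚ) →ₗ[ℚ] (⨁ v, H1 (Q v)) :=
  Finsupp.linearCombination ℚ fun y => DirectSum.lof ℚ V (fun v => H1 (Q v)) (s y.1)
    (Multiplicative.toAdd (cls (π (s y.1) (σ y.1 (FreeGroup.of y.2)))))

variable (s t : E → V)
  (σ : ∀ e, FreeGroup (B e) →* G (s e)) (τ : ∀ e, FreeGroup (B e) →* G (t e))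

/-- **the criterion on cyclic covers** -/
theorem ctrl_of_noW (hS : Function.Injective (endMap π B s σ)) (hT : Function.Injective (endMap π B t τ))
    (hW : ∀ W : Submodule ℚ ((Σ e, B e) →₀ ℚ), W.FG →
      W.map (endMap π B s σ) = W.map (endMap π B t τ) → W = ⊥) (T : Finset (Σ e, B e)) (e0 : E) :
    Ctrl π s t B σ τ T e0 := by
  classical
  let d := T.card
  let I := ZMod (d + 1)
  let J : Type := (I × T) ⊕ {b : B e0 // (⟨e0, b⟩ : Σ e, B e) ∈ T}
  haveI : Finite {b : B e0 // (⟨e0, b⟩ : Σ e, B e) ∈ T} := by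
    have hinj : Function.Injective
        (fun b : {b : B e0 // (⟨e0, b⟩ : Σ e, B e) ∈ T} => (⟨⟨e0, b.1⟩, b.2⟩ : T)) := by
      intro a b hab
      have h1 : (⟨e0, a.1⟩ : Σ e, B e) = ⟨e0, b.1⟩ := congrArg Subtype.val hab
      exact Subtype.ext (eq_of_heq (Sigma.mk.inj h1).2)
    exact Finite.of_injective _ hinj
  haveI : Fintype {b : B e0 // (⟨e0, b⟩ : Σ e, B e) ∈ T} := Fintype.ofFinite _
  letI : Fintype J := instFintypeSum _ _
  let Lm : I → ((⨁ v, H1 (Q v)) →ₗ[ℚ] (I → ⨁ v, H1 (Q v))) := fun i =>
    LinearMap.single ℚ (fun _ : I => ⨁ v, H1 (Q v)) i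
  have hLm : ∀ i x j, Lm i x j = if j = i then x else 0 := fun i x j => Pi.single_apply i x j
  let S' := endMap π B s σ
  let T' := endMap π B t τ
  let vec : J → (I → ⨁ v, H1 (Q v)) := fun z => match z with
    | Sum.inl (i, y) => Lm (i + 1) (S' (Finsupp.single y.1 1)) - Lm i (T' (Finsupp.single y.1 1))
    | Sum.inr b => Lm 0 (S' (Finsupp.single ⟨e0, b.1⟩ 1))
  have hvec : LinearIndependent ℚ vec := by
    rw [Fintype.linearIndependent_iff]
    intro g hg
    let a : I → ((Σ e, B e) →₀ ℚ) := fun i => ∑ y : T, g (Sum.inl (i, y)) • Finsupp.single y.1 1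
    let k : (Σ e, B e) →₀ ℚ := ∑ b : {b : B e0 // (⟨e0, b⟩ : Σ e, B e) ∈ T},
      g (Sum.inr b) • Finsupp.single (⟨e0, b.1⟩ : Σ e, B e) 1
    have h1 : (∑ i : I, (Lm (i + 1) (S' (a i)) - Lm i (T' (a i)))) + Lm 0 (S' k) = 0 := by
      rw [← hg, Fintype.sum_sum_type, Fintype.sum_prod_type]
      congr 1
      · apply Finset.sum_congr rfl
        intro i _
        change _ = ∑ y : T, g (Sum.inl (i, y)) • (Lm (i + 1) (S' (Finsupp.single y.1 1)) -
          Lm i (T' (Finsupp.single y.1 1)))
        simp only [a, map_sum, map_smul, smul_sub, Finset.sum_sub_distrib]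
      · change _ = ∑ b, g (Sum.inr b) • (Lm 0 (S' (Finsupp.single ⟨e0, b.1⟩ 1)))
        simp only [k, map_sum, map_smul]
    have h2 : ∀ j : I, S' (a (j - 1)) - T' (a j) + (if j = 0 then S' k else 0) = 0 := by
      intro j
      have h3 := congrFun h1 j
      rw [Pi.add_apply, Finset.sum_apply] at h3
      simp only [Pi.sub_apply, Finset.sum_sub_distrib, hLm, Pi.zero_apply] at h3
      rw [Finset.sum_ite_eq, if_pos (Finset.mem_univ _)] at h3
      have h4 : (∑ i : I, if j = i + 1 then S' (a i) else 0) = S' (a (j - 1)) := by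
        rw [Finset.sum_eq_single (j - 1)]
        · rw [if_pos (by ring)]
        · intro i _ hi
          rw [if_neg]
          rintro rfl
          apply hi
          ring
        · intro h
          exact absurd (Finset.mem_univ _) h
      rw [h4] at h3
      exact h3
    have h3 : ∀ n < d, S' (a (n : I)) = T' (a ((n + 1 : ℕ) : I)) := by
      intro n hn
      have h4 := h2 ((n + 1 : ℕ) : I)
      have h5 : (((n + 1 : ℕ) : I)) ≠ 0 := by
        intro h
        rw [ZMod.natCast_eq_zero_iff] at h
        have := Nat.le_of_dvd (Nat.succ_pos _) h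
        omega
      rw [if_neg h5, add_zero, sub_eq_zero] at h4
      rw [← h4]
      congr 2
      push_cast
      ring
    let U : Submodule ℚ ((Σ e, B e) →₀ ℚ) :=
      Submodule.span ℚ ((T.image fun y => Finsupp.single y (1 : ℚ) : Finset _) : Set _)
    haveI : FiniteDimensional ℚ U := FiniteDimensional.span_finset ℚ _
    have hU : Module.finrank ℚ U ≤ d :=
      (finrank_span_finset_le_card _).trans Finset.card_image_le
    have haU : ∀ i, a i ∈ U := by
      intro i
      apply Submodule.sum_mem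
      intro y _
      apply Submodule.smul_mem
      apply Submodule.subset_span
      rw [Finset.coe_image]
      exact ⟨y.1, y.2, rfl⟩
    have h4 := chain_zero S' T' hS hT hW U d hU (fun n => a (n : I)) (fun j _ => haU _) h3
    have h5 : ∀ i, a i = 0 := by
      intro i
      have h6 := h4 i.val (by have := ZMod.val_lt i; omega)
      rwa [ZMod.natCast_zmod_val] at h6
    have h6 : k = 0 := by
      have h7 := h2 0
      rw [if_pos rfl, h5, h5, map_zero, map_zero, sub_zero, zero_add] at h7
      exact hS (h7.trans (map_zero S').symm)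
    rintro (⟨i, y⟩ | b)
    · have h7 := DFunLike.congr_fun (h5 i) y.1
      change (∑ y' : T, g (Sum.inl (i, y')) • Finsupp.single y'.1 (1 : ℚ)) y.1 = 0 at h7
      rw [Finsupp.finsetSum_apply, Finset.sum_eq_single y] at h7
      · simpa using h7
      · intro y' _ hy'
        rw [Finsupp.smul_apply, Finsupp.single_apply, if_neg fun h => hy' (Subtype.ext h), smul_zero]
      · intro h
        exact absurd (Finset.mem_univ _) h
    · have h7 := DFunLike.congr_fun h6 (⟨e0, b.1⟩ : Σ e, B e)
      change (∑ b' : {b : B e0 // (⟨e0, b⟩ : Σ e, B e) ∈ T},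
        g (Sum.inr b') • Finsupp.single (⟨e0, b'.1⟩ : Σ e, B e) (1 : ℚ)) _ = 0 at h7
      rw [Finsupp.finsetSum_apply, Finset.sum_eq_single b] at h7
      · simpa using h7
      · intro b' _ hb'
        rw [Finsupp.smul_apply, Finsupp.single_apply, if_neg, smul_zero]
        intro h
        exact hb' (Subtype.ext (eq_of_heq (Sigma.mk.inj h).2))
      · intro h
        exact absurd (Finset.mem_univ _) h
  refine ⟨I, inferInstance, fun _ => Equiv.addRight 1, 0, fun c c0 => ?_⟩
  obtain ⟨φ, hφ⟩ := exists_functional vec hvec (fun z => match z with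
    | Sum.inl (i, y) => c i y.1
    | Sum.inr b => c0 b.1)
  let ψ : ∀ v, I → (Q v →* Multiplicative ℚ) := fun v i =>
    (AddMonoidHom.toMultiplicative ((φ.comp ((LinearMap.single ℚ (fun _ : I => ⨁ v, H1 (Q v)) i).comp
      (DirectSum.lof ℚ V (fun v => H1 (Q v)) v))).toAddMonoidHom)).comp cls
  have hψ : ∀ v i q, ψ v i q = Multiplicative.ofAdd (φ (Lm i
      (DirectSum.lof ℚ V (fun v => H1 (Q v)) v (Multiplicative.toAdd (cls q))))) := fun _ _ _ => rfl
  have hS1 : ∀ y, S' (Finsupp.single y 1) = DirectSum.lof ℚ V (fun v => H1 (Q v)) (s y.1)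
      (Multiplicative.toAdd (cls (π (s y.1) (σ y.1 (FreeGroup.of y.2))))) := by
    intro y
    change Finsupp.linearCombination ℚ _ _ = _
    rw [Finsupp.linearCombination_single, one_smul]
  have hT1 : ∀ y, T' (Finsupp.single y 1) = DirectSum.lof ℚ V (fun v => H1 (Q v)) (t y.1)
      (Multiplicative.toAdd (cls (π (t y.1) (τ y.1 (FreeGroup.of y.2))))) := by
    intro y
    change Finsupp.linearCombination ℚ _ _ = _
    rw [Finsupp.linearCombination_single, one_smul]
  refine ⟨ψ, ?_, ?_⟩
  · intro y hy i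
    rw [hψ, hψ, ← hS1, ← hT1]
    have h1 := hφ (Sum.inl (i, ⟨y, hy⟩))
    change φ (Lm (i + 1) (S' (Finsupp.single y 1)) - Lm i (T' (Finsupp.single y 1))) = c i y at h1
    rw [map_sub] at h1
    apply Multiplicative.toAdd.injective
    change φ (Lm (i + 1) (S' (Finsupp.single y 1))) = φ (Lm i (T' (Finsupp.single y 1))) + c i y
    linarith
  · intro b hb
    rw [hψ, ← hS1 ⟨e0, b⟩]
    exact congrArg Multiplicative.ofAdd (hφ (Sum.inr ⟨b, hb⟩))

end homology

end Pool.Agent.Helper38.NS
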