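import Pool.Agent.Helper38.NS.Ext
import Pool.Graph.R_seed8.Y812.SS.Wr

/-!
# Graphs of groups with finite covers: homomorphisms which are injective on an edge group

Owner helper38.
-/

set_option autoImplicit false

namespace Pool.Agent.Helper38.NS

open Matrix Monoid
open Pool.Agent.Y462.SS (Closed Wr)

/-- `Q` has a presentation with finitely many relators whose classes are linearly independent in the
rational homology of the free group on the generators -/
def IndepRelators (Q : Type) [Group Q] : Prop :=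
  ∃ (X R : Type) (_ : Finite R) (r : R → FreeGroup X),
    (∀ c : R → ℚ, ∃ ψ : FreeGroup X →* Multiplicative ℚ, ∀ j, ψ (r j) = Multiplicative.ofAdd (c j)) ∧
    Nonempty (Q ≃* FreeGroup X ⧸ Subgroup.normalClosure (Set.range r))

theorem dfd_of_rat (p : ℕ) [Fact p.Prime] (n : ℕ) {H : Type} [Group H] (f : H →* cong p n 1)
    (hf : ∀ x i j, ∃ q : ℚ, toQp p n (f x) i j = (q : ℚ_[p])) (B : Subalgebra ℚ ℚ_[p]) (x : H) :
    f x ∈ dfd p n B := by
  have h1 : ∀ q : ℚ, (q : ℚ_[p]) ∈ B := fun q => by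
    have := B.algebraMap_mem q
    simpa using this
  apply mem_glB
  · intro i j
    obtain ⟨q, hq⟩ := hf x i j
    rw [hq]
    exact h1 q
  · intro i j
    obtain ⟨q, hq⟩ := hf x⁻¹ i j
    rw [← map_inv, ← map_inv, hq]
    exact h1 q

section comp

variable {V E : Type} {G Q : V → Type} [∀ v, Group (G v)] [∀ v, Group (Q v)]
  (hQ : ∀ v, IndepRelators (Q v)) (π : ∀ v, G v →* Q v) (s t : E → V) (B : E → Type)
  (σ : ∀ e, FreeGroup (B e) →* G (s e)) (τ : ∀ e, FreeGroup (B e) →* G (t e))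

/-- the part of the edge group generated by the members of `T` -/
def part (T : Finset (Σ e, B e)) (e : E) : Subgroup (FreeGroup (B e)) :=
  Subgroup.closure {h | ∃ b : B e, (⟨e, b⟩ : Σ e, B e) ∈ T ∧ h = FreeGroup.of b}

/-- the condition on finite covers, for one edge and a finite part of the edge groups -/
def Ctrl (T : Finset (Σ e, B e)) (e0 : E) : Prop :=
  ∃ (I : Type) (_ : Finite I) (x : E → Equiv.Perm I) (i0 : I),
    ∀ (c : I → (Σ e, B e) → ℚ) (c0 : B e0 → ℚ), ∃ ψ : ∀ v, I → (Q v →* Multiplicative ℚ),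
      (∀ y ∈ T, ∀ i, ψ (s y.1) (x y.1 i) (π _ (σ y.1 (FreeGroup.of y.2))) =
        ψ (t y.1) i (π _ (τ y.1 (FreeGroup.of y.2))) * Multiplicative.ofAdd (c i y)) ∧
      ∀ b : B e0, (⟨e0, b⟩ : Σ e, B e) ∈ T →
        ψ (s e0) i0 (π _ (σ e0 (FreeGroup.of b))) = Multiplicative.ofAdd (c0 b)

include hQ in
theorem comp1 (C : ∀ (G : Type) [Group G], Prop) (hC : Closed C)
    (hL : ∀ n : ℕ, C (GL (Fin n) ℚ)) (T : Finset (Σ e, B e)) (e0 : E)
    (hT : Ctrl π s t B σ τ T e0) :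
    ∃ (P : Type) (_ : Group P) (f : ∀ v, G v →* P) (y : E → P), C P ∧
      (∀ e, ∀ h ∈ part B T e, y e * f (t e) (τ e h) = f (s e) (σ e h) * y e) ∧
      ∀ h ∈ part B T e0, f (s e0) (σ e0 h) = 1 → h = 1 := by
  classical
  obtain ⟨I, hI, x, i0, hψ⟩ := hT
  choose X R hR r hr hθ using hQ
  let θ := fun v => (hθ v).some
  have hlf : ∀ v (q : Q v), ∃ u : FreeGroup (X v), QuotientGroup.mk' _ u = θ v q :=
    fun v q => QuotientGroup.mk'_surjective _ _
  choose lf hlf using hlf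
  let S0 : Type := {b : B e0 // (⟨e0, b⟩ : Σ e, B e) ∈ T}
  haveI : Finite S0 := by
    have hinj : Function.Injective (fun b : S0 => (⟨⟨e0, b.1⟩, b.2⟩ : T)) := by
      intro a b hab
      have h1 : (⟨e0, a.1⟩ : Σ e, B e) = ⟨e0, b.1⟩ := congrArg Subtype.val hab
      exact Subtype.ext (eq_of_heq (Sigma.mk.inj h1).2)
    exact Finite.of_injective _ hinj
  let VF : Finset V := insert (s e0) ((T.image fun y => s y.1) ∪ (T.image fun y => t y.1))
  have hVs : ∀ y ∈ T, s y.1 ∈ VF := fun y hy => Finset.mem_insert_of_mem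
    (Finset.mem_union_left _ (Finset.mem_image.2 ⟨y, hy, rfl⟩))
  have hVt : ∀ y ∈ T, t y.1 ∈ VF := fun y hy => Finset.mem_insert_of_mem
    (Finset.mem_union_right _ (Finset.mem_image.2 ⟨y, hy, rfl⟩))
  have hV0 : s e0 ∈ VF := Finset.mem_insert_self _ _
  let Y : Type := Σ v : V, I × X v
  let L := Coprod (FreeGroup S0) (FreeGroup Y)
  let em : ∀ (v : V) (i : I), FreeGroup (X v) →* L := fun v i =>
    Coprod.inr.comp (FreeGroup.map fun z => (⟨v, i, z⟩ : Y))
  let RR : Type := (Σ v : VF, I × R v) ⊕ ((T × I) ⊕ S0)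
  haveI : ∀ v : VF, Finite (I × R v) := fun v => by
    haveI := hR v
    infer_instance
  haveI : Finite RR := inferInstance
  let w : RR → L := fun z => match z with
    | Sum.inl ⟨v, i, j⟩ => em v i (r v j)
    | Sum.inr (Sum.inl (y, i)) => em (s y.1.1) (x y.1.1 i) (lf _ (π _ (σ y.1.1 (FreeGroup.of y.1.2)))) *
        (em (t y.1.1) i (lf _ (π _ (τ y.1.1 (FreeGroup.of y.1.2)))))⁻¹
    | Sum.inr (Sum.inr b) => em (s e0) i0 (lf _ (π _ (σ e0 (FreeGroup.of b.1)))) *
        (Coprod.inl (FreeGroup.of b))⁻¹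
  have hw : Indep ℚ w := by
    intro c
    have h1 : ∀ (v : V) (i : I), ∃ ψ' : FreeGroup (X v) →* Multiplicative ℚ, ∀ (hv : v ∈ VF) (j : R v),
        ψ' (r v j) = Multiplicative.ofAdd (c (Sum.inl ⟨⟨v, hv⟩, i, j⟩)) := by
      intro v i
      by_cases hv : v ∈ VF
      · obtain ⟨ψ', h⟩ := hr v (fun j => c (Sum.inl ⟨⟨v, hv⟩, i, j⟩))
        exact ⟨ψ', fun _ j => h j⟩
      · exact ⟨1, fun h => absurd h hv⟩
    choose ψ' hψ' using h1
    let c' : I → (Σ e, B e) → ℚ := fun i y => if hy : y ∈ T then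
      c (Sum.inr (Sum.inl (⟨y, hy⟩, i))) -
        Multiplicative.toAdd (ψ' (s y.1) (x y.1 i) (lf _ (π _ (σ y.1 (FreeGroup.of y.2))))) +
        Multiplicative.toAdd (ψ' (t y.1) i (lf _ (π _ (τ y.1 (FreeGroup.of y.2))))) else 0
    let c0' : B e0 → ℚ := fun b => if hb : (⟨e0, b⟩ : Σ e, B e) ∈ T then
      c (Sum.inr (Sum.inr ⟨b, hb⟩)) -
        Multiplicative.toAdd (ψ' (s e0) i0 (lf _ (π _ (σ e0 (FreeGroup.of b))))) else 0
    obtain ⟨ψ, h2, h3⟩ := hψ c' c0'
    let Ψ : L →* Multiplicative ℚ := Coprod.lift 1 (FreeGroup.lift fun y : Y =>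
      ψ' y.1 y.2.1 (FreeGroup.of y.2.2) *
        ψ y.1 y.2.1 ((θ y.1).symm (QuotientGroup.mk' _ (FreeGroup.of y.2.2))))
    have hΨ : ∀ (v : V) (i : I) (u : FreeGroup (X v)), Ψ (em v i u) =
        ψ' v i u * ψ v i ((θ v).symm (QuotientGroup.mk' _ u)) := by
      intro v i
      have h4 : Ψ.comp (em v i) = (ψ' v i) * ((ψ v i).comp ((θ v).symm.toMonoidHom.comp
          (QuotientGroup.mk' _))) := by
        apply FreeGroup.ext_hom
        intro z
        change Ψ (Coprod.inr (FreeGroup.map (fun z => (⟨v, i, z⟩ : Y)) (FreeGroup.of z))) = _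
        rw [FreeGroup.map.of]
        change Coprod.lift 1 _ (Coprod.inr _) = _
        rw [Monoid.Coprod.lift_apply_inr, FreeGroup.lift_apply_of]
        rfl
      intro u
      exact DFunLike.congr_fun h4 u
    have hΨlf : ∀ (v : V) (i : I) (q : Q v), Ψ (em v i (lf v q)) = ψ' v i (lf v q) * ψ v i q := by
      intro v i q
      rw [hΨ, hlf, MulEquiv.symm_apply_apply]
    refine ⟨Ψ, fun h => Monoid.Coprod.lift_apply_inl _ _ _, ?_⟩
    rintro (⟨v, i, j⟩ | ⟨⟨y, hy⟩, i⟩ | ⟨b, hb⟩)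
    · change Ψ (em v i (r v j)) = _
      rw [hΨ, hψ' v i v.2 j]
      have h5 : (QuotientGroup.mk' (Subgroup.normalClosure (Set.range (r v)))) (r v j) = 1 :=
        (QuotientGroup.eq_one_iff _).2 (Subgroup.subset_normalClosure ⟨j, rfl⟩)
      rw [h5, map_one, map_one, mul_one]
    · change Ψ (em (s y.1) (x y.1 i) (lf _ (π _ (σ y.1 (FreeGroup.of y.2)))) *
        (em (t y.1) i (lf _ (π _ (τ y.1 (FreeGroup.of y.2)))))⁻¹) = _
      rw [map_mul, map_inv, hΨlf, hΨlf, h2 y hy i]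
      have h5 : c' i y = c (Sum.inr (Sum.inl (⟨y, hy⟩, i))) -
        Multiplicative.toAdd (ψ' (s y.1) (x y.1 i) (lf _ (π _ (σ y.1 (FreeGroup.of y.2))))) +
        Multiplicative.toAdd (ψ' (t y.1) i (lf _ (π _ (τ y.1 (FreeGroup.of y.2))))) := dif_pos hy
      rw [h5]
      apply Multiplicative.toAdd.injective
      simp only [toAdd_mul, toAdd_inv, toAdd_ofAdd]
      ring
    · change Ψ (em (s e0) i0 (lf _ (π _ (σ e0 (FreeGroup.of b)))) *
        (Coprod.inl (FreeGroup.of (⟨b, hb⟩ : S0)))⁻¹) = _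
      have h6 : Ψ (Coprod.inl (FreeGroup.of (⟨b, hb⟩ : S0))) = 1 := Monoid.Coprod.lift_apply_inl _ _ _
      rw [map_mul, map_inv, hΨlf, h6, h3 b hb]
      have h5 : c0' b = c (Sum.inr (Sum.inr ⟨b, hb⟩)) -
        Multiplicative.toAdd (ψ' (s e0) i0 (lf _ (π _ (σ e0 (FreeGroup.of b))))) := dif_pos hb
      rw [h5]
      apply Multiplicative.toAdd.injective
      simp only [toAdd_mul, toAdd_inv, toAdd_ofAdd, toAdd_one]
      ring
  obtain ⟨N, hN, hNp⟩ := indepP_of_rat w hw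
  obtain ⟨p, hpN, hp⟩ := Nat.exists_infinite_primes (N + 1)
  haveI : Fact p.Prime := ⟨hp⟩
  have hpN' : ¬ p ∣ N := fun h => by
    have := Nat.le_of_dvd (Nat.pos_of_ne_zero hN) h
    omega
  obtain ⟨n, f0, hf0, hf0q⟩ := free_cong p S0
  obtain ⟨B', ρ, hB', -, hρ1, hρ2, hρ3⟩ := solve_dfd p w (hNp p hp hpN') n ⊥ Subalgebra.fg_bot f0
    (dfd_of_rat p n f0 hf0q ⊥)
  obtain ⟨k, hk1, hk2, Φ, hΦ⟩ := specialize p n B' hB'
  let ρ' : L →* GL (Fin n) k := Φ.comp (ρ.codRestrict _ hρ3)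
  have hρ'w : ∀ z, ρ' (w z) = 1 := by
    intro z
    have h1 : ρ.codRestrict _ hρ3 (w z) = 1 := Subtype.ext (hρ2 z)
    change Φ (ρ.codRestrict _ hρ3 (w z)) = 1
    rw [h1, map_one]
  have hρ'inj : ∀ u : FreeGroup S0, ρ' (Coprod.inl u) = 1 → u = 1 := by
    intro u hu
    have h1 := hΦ (ρ.codRestrict _ hρ3 (Coprod.inl u)) (by
      intro i j
      obtain ⟨q, hq⟩ := hf0q u i j
      refine ⟨q, ?_⟩
      change toQp p n (ρ (Coprod.inl u)) i j = _
      rw [hρ1, hq]) hu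
    have h2 : ρ (Coprod.inl u) = 1 := congrArg Subtype.val h1
    rw [hρ1] at h2
    exact hf0 (h2.trans (map_one f0).symm)
  have hg : ∀ (v : V) (i : I), ∃ g : Q v →* GL (Fin n) k, v ∈ VF → ∀ q, g q = ρ' (em v i (lf v q)) := by
    intro v i
    by_cases hv : v ∈ VF
    · have h1 : Subgroup.normalClosure (Set.range (r v)) ≤ (ρ'.comp (em v i)).ker := by
        apply Subgroup.normalClosure_le_normal
        rintro _ ⟨j, rfl⟩
        exact hρ'w (Sum.inl ⟨⟨v, hv⟩, i, j⟩)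
      refine ⟨(QuotientGroup.lift _ (ρ'.comp (em v i)) h1).comp (θ v).toMonoidHom, fun _ q => ?_⟩
      change QuotientGroup.lift _ (ρ'.comp (em v i)) h1 (θ v q) = _
      rw [← hlf]
      rfl
    · exact ⟨1, fun h => absurd h hv⟩
  choose g hg using hg
  let f : ∀ v, G v →* Wr I (GL (Fin n) k) := fun v =>
    { toFun := fun a => ⟨fun i => g v i (π v a), 1⟩
      map_one' := by
        apply Wr.ext
        · funext i
          simp
        · rfl
      map_mul' := by
        intro a b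
        apply Wr.ext
        · funext i
          change g v i (π v (a * b)) = g v i (π v a) * g v i (π v b)
          rw [map_mul, map_mul]
        · rfl }
  let y : E → Wr I (GL (Fin n) k) := fun e => ⟨1, x e⟩
  have hCP : C (Wr I (GL (Fin n) k)) :=
    Pool.Agent.Y812.SS.t_wr C hC I (GL (Fin n) k) hI (nf_mem C hC hL k n)
  refine ⟨Wr I (GL (Fin n) k), inferInstance, f, y, hCP, ?_, ?_⟩
  · intro e h hh
    -- conjugation
    have h1 : part B T e ≤ ((MulAut.conj (y e)).toMonoidHom.comp ((f (t e)).comp (τ e))).eqLocus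
        ((f (s e)).comp (σ e)) := by
      unfold part
      rw [Subgroup.closure_le]
      rintro _ ⟨b, hb, rfl⟩
      change y e * f (t e) (τ e (FreeGroup.of b)) * (y e)⁻¹ = f (s e) (σ e (FreeGroup.of b))
      rw [mul_inv_eq_iff_eq_mul]
      apply Wr.ext
      · funext i
        change (1 : GL (Fin n) k) * g (t e) i (π _ (τ e (FreeGroup.of b))) =
          g (s e) (x e i) (π _ (σ e (FreeGroup.of b))) * 1
        rw [one_mul, mul_one, hg _ _ (hVt ⟨e, b⟩ hb), hg _ _ (hVs ⟨e, b⟩ hb)]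
        have h2 := hρ'w (Sum.inr (Sum.inl (⟨⟨e, b⟩, hb⟩, i)))
        change ρ' (em (s e) (x e i) (lf _ (π _ (σ e (FreeGroup.of b)))) *
          (em (t e) i (lf _ (π _ (τ e (FreeGroup.of b)))))⁻¹) = 1 at h2
        rw [map_mul, map_inv, mul_inv_eq_one] at h2
        exact h2.symm
      · change x e * 1 = 1 * x e
        rw [mul_one, one_mul]
    have h3 : y e * f (t e) (τ e h) * (y e)⁻¹ = f (s e) (σ e h) := h1 hh
    exact mul_inv_eq_iff_eq_mul.1 h3
  · intro h hh hfh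
    -- `h` comes from `FreeGroup S0`
    have h1 : part B T e0 ≤ (FreeGroup.map (fun b : S0 => b.1)).range := by
      unfold part
      rw [Subgroup.closure_le]
      rintro _ ⟨b, hb, rfl⟩
      exact ⟨FreeGroup.of ⟨b, hb⟩, by rw [FreeGroup.map.of]⟩
    obtain ⟨u, rfl⟩ := h1 hh
    have h2 : ((g (s e0) i0).comp ((π (s e0)).comp (σ e0))).comp (FreeGroup.map (fun b : S0 => b.1)) =
        ρ'.comp Coprod.inl := by
      apply FreeGroup.ext_hom
      intro b
      change g (s e0) i0 (π _ (σ e0 (FreeGroup.map _ (FreeGroup.of b)))) = ρ' (Coprod.inl (FreeGroup.of b))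
      rw [FreeGroup.map.of, hg _ _ hV0]
      have h3 := hρ'w (Sum.inr (Sum.inr b))
      change ρ' (em (s e0) i0 (lf _ (π _ (σ e0 (FreeGroup.of b.1)))) *
        (Coprod.inl (FreeGroup.of b))⁻¹) = 1 at h3
      rw [map_mul, map_inv, mul_inv_eq_one] at h3
      exact h3
    have h4 : g (s e0) i0 (π _ (σ e0 (FreeGroup.map (fun b : S0 => b.1) u))) = 1 :=
      congrArg (fun z : Wr I (GL (Fin n) k) => z.s i0) hfh
    have h5 := DFunLike.congr_fun h2 u
    have h6 : u = 1 := hρ'inj u (h5.symm.trans h4)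
    rw [h6, map_one]

end comp

end Pool.Agent.Helper38.NS
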