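import Pool.Agent.Helper38.NS.Filt

/-!
# The congruence subgroup of `GL_n(ℤ_p)`

Owner helper38.
-/

set_option autoImplicit false

namespace Pool.Agent.Helper38.NS

open Matrix

section

variable (p : ℕ) [Fact p.Prime] (n : ℕ)

/-- matrices over `ℤ_p` which are trivial modulo `p ^ k` -/
noncomputable def cong (k : ℕ) : Subgroup (GL (Fin n) ℤ_[p]) :=
  (GeneralLinearGroup.map (n := Fin n)
    (Ideal.Quotient.mk (Ideal.span {((p : ℤ_[p]) ^ k)}))).ker

instance cong_normal (k : ℕ) : (cong p n k).Normal := by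
  unfold cong; infer_instance

theorem mem_cong {k : ℕ} (g : GL (Fin n) ℤ_[p]) :
    g ∈ cong p n k ↔ ∃ X : Matrix (Fin n) (Fin n) ℤ_[p],
      (g : Matrix (Fin n) (Fin n) ℤ_[p]) = 1 + ((p : ℤ_[p]) ^ k) • X := by
  rw [cong, MonoidHom.mem_ker]
  constructor
  · intro h
    have h1 : ∀ i j, ∃ x : ℤ_[p], (g : Matrix (Fin n) (Fin n) ℤ_[p]) i j =
        (1 : Matrix (Fin n) (Fin n) ℤ_[p]) i j + (p : ℤ_[p]) ^ k * x := by
      intro i j
      have h2 := congrArg (fun z : GL (Fin n) (ℤ_[p] ⧸ Ideal.span {((p : ℤ_[p]) ^ k)}) => z i j) h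
      simp only [GeneralLinearGroup.map_apply] at h2
      have h3 : (1 : GL (Fin n) (ℤ_[p] ⧸ Ideal.span {((p : ℤ_[p]) ^ k)})) i j =
          Ideal.Quotient.mk (Ideal.span {((p : ℤ_[p]) ^ k)}) ((1 : Matrix (Fin n) (Fin n) ℤ_[p]) i j) := by
        simp [Matrix.one_apply]
      rw [h3, Ideal.Quotient.eq, Ideal.mem_span_singleton] at h2
      obtain ⟨x, hx⟩ := h2
      exact ⟨x, by rw [← hx]; ring⟩
    choose X hX using h1
    refine ⟨Matrix.of X, ?_⟩
    ext i j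
    rw [hX i j]
    simp
  · rintro ⟨X, hX⟩
    ext i j
    simp only [GeneralLinearGroup.map_apply]
    rw [hX]
    have h4 : Ideal.Quotient.mk (Ideal.span {((p : ℤ_[p]) ^ k)}) ((p : ℤ_[p]) ^ k) = 0 :=
      Ideal.Quotient.eq_zero_iff_mem.2 (Ideal.mem_span_singleton_self _)
    rw [Matrix.add_apply, Matrix.smul_apply, smul_eq_mul, map_add, map_mul, h4, zero_mul, add_zero]
    simp [Matrix.one_apply]

theorem cong_zero : cong p n 0 = ⊤ := by
  rw [eq_top_iff]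
  intro g _
  rw [mem_cong]
  exact ⟨(g : Matrix (Fin n) (Fin n) ℤ_[p]) - 1, by simp⟩

theorem cong_anti (k : ℕ) : cong p n (k + 1) ≤ cong p n k := by
  intro g hg
  rw [mem_cong] at hg ⊢
  obtain ⟨X, hX⟩ := hg
  exact ⟨(p : ℤ_[p]) • X, by rw [hX, smul_smul, pow_succ]⟩

theorem cong_comm (k l : ℕ) (g h : GL (Fin n) ℤ_[p]) (hg : g ∈ cong p n k) (hh : h ∈ cong p n l) :
    g * h * g⁻¹ * h⁻¹ ∈ cong p n (k + l) := by
  obtain ⟨X, hX⟩ := (mem_cong p n g).1 hg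
  obtain ⟨Y, hY⟩ := (mem_cong p n h).1 hh
  rw [mem_cong]
  refine ⟨(X * Y - Y * X) * ((g⁻¹ * h⁻¹ : GL (Fin n) ℤ_[p]) : Matrix (Fin n) (Fin n) ℤ_[p]), ?_⟩
  have h1 : (g : Matrix (Fin n) (Fin n) ℤ_[p]) * h = h * g +
      ((p : ℤ_[p]) ^ (k + l)) • (X * Y - Y * X) := by
    rw [hX, hY, pow_add]
    simp only [add_mul, mul_add, one_mul, mul_one, smul_mul_assoc, mul_smul_comm, smul_add,
      smul_sub, smul_smul, mul_comm ((p : ℤ_[p]) ^ l)]
    abel
  have h2 : ((h * g : GL (Fin n) ℤ_[p]) : Matrix (Fin n) (Fin n) ℤ_[p]) *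
      ((g⁻¹ * h⁻¹ : GL (Fin n) ℤ_[p]) : Matrix (Fin n) (Fin n) ℤ_[p]) = 1 := by
    rw [← Units.val_mul]
    have : h * g * (g⁻¹ * h⁻¹) = 1 := by group
    rw [this, Units.val_one]
  have h3 : ((g * h * g⁻¹ * h⁻¹ : GL (Fin n) ℤ_[p]) : Matrix (Fin n) (Fin n) ℤ_[p]) =
      ((g : Matrix (Fin n) (Fin n) ℤ_[p]) * h) *
      ((g⁻¹ * h⁻¹ : GL (Fin n) ℤ_[p]) : Matrix (Fin n) (Fin n) ℤ_[p]) := by
    simp only [Units.val_mul, mul_assoc]
  rw [h3, h1, add_mul, smul_mul_assoc, ← Units.val_mul, h2]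

theorem cong_pow (k : ℕ) (h : GL (Fin n) ℤ_[p]) (hh : h ∈ cong p n (k + 1)) :
    h ^ p ∈ cong p n (k + 2) := by
  obtain ⟨X, hX⟩ := (mem_cong p n h).1 hh
  have h1 : ∀ m : ℕ, ∃ Z : Matrix (Fin n) (Fin n) ℤ_[p],
      ((h ^ m : GL (Fin n) ℤ_[p]) : Matrix (Fin n) (Fin n) ℤ_[p]) =
        1 + (m : ℤ_[p]) • (((p : ℤ_[p]) ^ (k + 1)) • X) + ((p : ℤ_[p]) ^ (k + 2)) • Z := by
    intro m
    induction m with
    | zero => exact ⟨0, by simp⟩
    | succ m ih =>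
      obtain ⟨Z, hZ⟩ := ih
      refine ⟨Z + ((m : ℤ_[p]) * (p : ℤ_[p]) ^ k) • (X * X) + (p : ℤ_[p]) ^ (k + 1) • (Z * X), ?_⟩
      rw [pow_succ, Units.val_mul, hZ, hX]
      simp only [add_mul, mul_add, one_mul, mul_one, smul_mul_assoc, mul_smul_comm, smul_smul,
        smul_add, Nat.cast_add, Nat.cast_one, add_smul, pow_add, pow_two, pow_one]
      simp only [mul_assoc, mul_comm, mul_left_comm]
      abel
  obtain ⟨Z, hZ⟩ := h1 p
  rw [mem_cong]
  refine ⟨X + Z, ?_⟩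
  rw [hZ, smul_add, smul_smul, add_assoc]
  congr 2
  rw [← pow_succ']

theorem ideal_eq (k : ℕ) : ((IsLocalRing.maximalIdeal ℤ_[p]) ^ k • ⊤ : Submodule ℤ_[p] ℤ_[p]) =
    Ideal.span {((p : ℤ_[p]) ^ k)} := by
  rw [PadicInt.maximalIdeal_eq_span_p, Ideal.span_singleton_pow, smul_eq_mul, Ideal.mul_top]

theorem cong_sep (g : GL (Fin n) ℤ_[p]) (hg : ∀ k, g ∈ cong p n (k + 1)) : g = 1 := by
  ext i j
  have h1 : ∀ k : ℕ, ((g : Matrix (Fin n) (Fin n) ℤ_[p]) - 1) i j ∈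
      (Ideal.span {((p : ℤ_[p]) ^ k)} : Ideal ℤ_[p]) := by
    intro k
    obtain ⟨X, hX⟩ := (mem_cong p n g).1 (hg k)
    rw [hX, add_sub_cancel_left, Matrix.smul_apply, smul_eq_mul, Ideal.mem_span_singleton]
    exact ⟨(p : ℤ_[p]) * X i j, by rw [pow_succ]; ring⟩
  have h2 : ((g : Matrix (Fin n) (Fin n) ℤ_[p]) - 1) i j = 0 := by
    apply IsHausdorff.haus (I := IsLocalRing.maximalIdeal ℤ_[p]) inferInstance
    intro k
    rw [ideal_eq, SModEq.zero]
    exact h1 k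
  rw [Matrix.sub_apply, sub_eq_zero] at h2
  simpa using h2

theorem cong_compl (u : ℕ → GL (Fin n) ℤ_[p]) (hu : ∀ k, (u k)⁻¹ * u (k + 1) ∈ cong p n (k + 1))
    (hu0 : ∀ k, u k ∈ cong p n 1) :
    ∃ g ∈ cong p n 1, ∀ k, (u k)⁻¹ * g ∈ cong p n (k + 1) := by
  -- entries
  have h1 : ∀ k i j, (p : ℤ_[p]) ^ (k + 1) ∣ (u (k + 1)) i j - (u k) i j := by
    intro k i j
    obtain ⟨X, hX⟩ := (mem_cong p n _).1 (hu k)
    have h2 : (u (k + 1) : Matrix (Fin n) (Fin n) ℤ_[p]) =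
        (u k : Matrix (Fin n) (Fin n) ℤ_[p]) * (1 + ((p : ℤ_[p]) ^ (k + 1)) • X) := by
      rw [← hX, Units.val_mul, ← mul_assoc, ← Units.val_mul, mul_inv_cancel, Units.val_one, one_mul]
    rw [mul_add, mul_one, mul_smul_comm] at h2
    refine ⟨((u k : Matrix (Fin n) (Fin n) ℤ_[p]) * X) i j, ?_⟩
    rw [h2, Matrix.add_apply, Matrix.smul_apply, smul_eq_mul, add_sub_cancel_left]
  have h2 : ∀ i j, ∃ a : ℤ_[p], ∀ k, (p : ℤ_[p]) ^ (k + 1) ∣ a - (u k) i j := by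
    intro i j
    obtain ⟨a, ha⟩ := IsPrecomplete.prec (I := IsLocalRing.maximalIdeal ℤ_[p]) (M := ℤ_[p])
      inferInstance (f := fun k => (u k) i j) (by
        intro m l hml
        induction l, hml using Nat.le_induction with
        | base => exact SModEq.refl _
        | succ l hl ih =>
          refine ih.trans ?_
          rw [ideal_eq, SModEq.sub_mem, Ideal.mem_span_singleton, ← neg_sub, dvd_neg]
          exact (pow_dvd_pow _ (by omega)).trans (h1 l i j))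
    refine ⟨a, fun k => ?_⟩
    have h3 := ha (k + 1)
    rw [ideal_eq, SModEq.sub_mem, Ideal.mem_span_singleton] at h3
    have h4 : a - (u k) i j = ((u (k + 1)) i j - (u k) i j) - ((u (k + 1)) i j - a) := by ring
    rw [h4]
    exact dvd_sub (h1 k i j) h3
  choose a ha using h2
  let A : Matrix (Fin n) (Fin n) ℤ_[p] := Matrix.of a
  have h3 : ∀ k, ∃ X, A = (u k : Matrix (Fin n) (Fin n) ℤ_[p]) + ((p : ℤ_[p]) ^ (k + 1)) • X := by
    intro k
    choose X hX using fun i j => ha i j k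
    refine ⟨Matrix.of X, ?_⟩
    ext i j
    rw [Matrix.add_apply, Matrix.smul_apply, smul_eq_mul, Matrix.of_apply, ← hX i j]
    change a i j = _
    ring
  have h4 : ∀ k, ∃ X, ((u k)⁻¹ : GL (Fin n) ℤ_[p]) * A =
      (1 : Matrix (Fin n) (Fin n) ℤ_[p]) + ((p : ℤ_[p]) ^ (k + 1)) • X := by
    intro k
    obtain ⟨X, hX⟩ := h3 k
    refine ⟨((u k)⁻¹ : GL (Fin n) ℤ_[p]) * X, ?_⟩
    rw [hX, mul_add, mul_smul_comm, ← Units.val_mul, inv_mul_cancel, Units.val_one]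
  have h5 : IsUnit A := by
    rw [Matrix.isUnit_iff_isUnit_det]
    obtain ⟨X, hX⟩ := h3 0
    have h6 : IsUnit (u 0 : Matrix (Fin n) (Fin n) ℤ_[p]).det :=
      (Matrix.isUnit_iff_isUnit_det _).1 (u 0).isUnit
    have h7 : (IsLocalRing.residue ℤ_[p]) A.det =
        (IsLocalRing.residue ℤ_[p]) (u 0 : Matrix (Fin n) (Fin n) ℤ_[p]).det := by
      rw [RingHom.map_det, RingHom.map_det]
      congr 1
      ext i j
      rw [RingHom.mapMatrix_apply, RingHom.mapMatrix_apply, Matrix.map_apply, Matrix.map_apply, hX,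
        Matrix.add_apply, Matrix.smul_apply, smul_eq_mul, map_add, map_mul]
      have h8 : (IsLocalRing.residue ℤ_[p]) ((p : ℤ_[p]) ^ (0 + 1)) = 0 := by
        rw [IsLocalRing.residue_eq_zero_iff, PadicInt.maximalIdeal_eq_span_p, zero_add, pow_one]
        exact Ideal.mem_span_singleton_self _
      rw [h8, zero_mul, add_zero]
    exact (IsLocalRing.notMem_maximalIdeal.1 fun h => by
      have h9 := (IsLocalRing.residue_eq_zero_iff _).2 h
      rw [h7, IsLocalRing.residue_eq_zero_iff] at h9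
      exact IsLocalRing.notMem_maximalIdeal.2 h6 h9)
  obtain ⟨g, hg⟩ := h5
  have h6 : ∀ k, (u k)⁻¹ * g ∈ cong p n (k + 1) := by
    intro k
    rw [mem_cong]
    obtain ⟨X, hX⟩ := h4 k
    exact ⟨X, by rw [Units.val_mul, hg, hX]⟩
  refine ⟨g, ?_, h6⟩
  have h7 := mul_mem (hu0 0) (h6 0)
  rwa [mul_inv_cancel_left] at h7

/-- the filtration of the congruence subgroup -/
noncomputable def congFilt : Filt p (cong p n 1) where
  K k := (cong p n (k + 1)).subgroupOf (cong p n 1)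
  norm k := inferInstance
  top := by
    rw [zero_add]
    exact Subgroup.subgroupOf_self _
  anti k := by
    intro g hg
    rw [Subgroup.mem_subgroupOf] at hg ⊢
    exact cong_anti p n _ hg
  comm k g h hh := by
    rw [Subgroup.mem_subgroupOf] at hh ⊢
    have := cong_comm p n 1 (k + 1) g h g.2 hh
    rwa [add_comm 1] at this
  pow k h hh := by
    rw [Subgroup.mem_subgroupOf] at hh ⊢
    exact cong_pow p n k h hh
  sep g hg := Subtype.ext (cong_sep p n g fun k => Subgroup.mem_subgroupOf.1 (hg k))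
  compl u hu := by
    obtain ⟨g, hg, h⟩ := cong_compl p n (fun k => (u k : GL (Fin n) ℤ_[p]))
      (fun k => Subgroup.mem_subgroupOf.1 (hu k)) (fun k => (u k).2)
    exact ⟨⟨g, hg⟩, fun k => Subgroup.mem_subgroupOf.2 (h k)⟩

end

end Pool.Agent.Helper38.NS
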