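import Pool.Agent.Helper38.NS.Cong

/-!
# Representations over finitely generated algebras and their specializations

Owner helper38.
-/

set_option autoImplicit false

namespace Pool.Agent.Helper38.NS

open Matrix Monoid

section

variable (p : ℕ) [Fact p.Prime] (n : ℕ)

/-- the congruence subgroup in `GL_n(ℚ_p)` -/
noncomputable def toQp : cong p n 1 →* GL (Fin n) ℚ_[p] :=
  (GeneralLinearGroup.map (n := Fin n) (PadicInt.Coe.ringHom (p := p))).comp (cong p n 1).subtype

theorem toQp_injective : Function.Injective (toQp p n) := by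
  intro g h hgh
  apply Subtype.ext
  ext i j
  have h1 := congrArg (fun z : GL (Fin n) ℚ_[p] => z i j) hgh
  have h2 : (((g : GL (Fin n) ℤ_[p]) i j : ℤ_[p]) : ℚ_[p]) = ((h : GL (Fin n) ℤ_[p]) i j : ℤ_[p]) := h1
  exact Subtype.ext h2

/-- invertible matrices over `B` -/
noncomputable def glB (B : Subalgebra ℚ ℚ_[p]) : GL (Fin n) B →* GL (Fin n) ℚ_[p] :=
  GeneralLinearGroup.map (n := Fin n) (B.val : B →+* ℚ_[p])

theorem glB_injective (B : Subalgebra ℚ ℚ_[p]) : Function.Injective (glB p n B) := by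
  intro g h hgh
  ext i j
  have h1 := congrArg (fun z : GL (Fin n) ℚ_[p] => z i j) hgh
  exact h1

theorem mem_glB (B : Subalgebra ℚ ℚ_[p]) (g : GL (Fin n) ℚ_[p]) (h1 : ∀ i j, g i j ∈ B)
    (h2 : ∀ i j, g⁻¹ i j ∈ B) : g ∈ (glB p n B).range := by
  let X : Matrix (Fin n) (Fin n) B := Matrix.of fun i j => ⟨_, h1 i j⟩
  let Y : Matrix (Fin n) (Fin n) B := Matrix.of fun i j => ⟨_, h2 i j⟩
  have hinj : Function.Injective (fun M : Matrix (Fin n) (Fin n) B =>
      (B.val : B →+* ℚ_[p]).mapMatrix M) := by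
    intro M N h
    ext i j
    exact congrArg (fun z : Matrix (Fin n) (Fin n) ℚ_[p] => z i j) h
  have hX : (B.val : B →+* ℚ_[p]).mapMatrix X = (g : Matrix (Fin n) (Fin n) ℚ_[p]) := by
    ext i j
    rfl
  have hY : (B.val : B →+* ℚ_[p]).mapMatrix Y =
      ((g⁻¹ : GL (Fin n) ℚ_[p]) : Matrix (Fin n) (Fin n) ℚ_[p]) := by
    ext i j
    rfl
  refine ⟨⟨X, Y, ?_, ?_⟩, ?_⟩
  · apply hinj
    change (B.val : B →+* ℚ_[p]).mapMatrix (X * Y) = (B.val : B →+* ℚ_[p]).mapMatrix 1
    rw [map_mul, map_one, hX, hY, ← Units.val_mul, mul_inv_cancel, Units.val_one]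
  · apply hinj
    change (B.val : B →+* ℚ_[p]).mapMatrix (Y * X) = (B.val : B →+* ℚ_[p]).mapMatrix 1
    rw [map_mul, map_one, hX, hY, ← Units.val_mul, inv_mul_cancel, Units.val_one]
  · ext i j
    rfl

/-- the elements of the congruence subgroup which are defined over `B` -/
noncomputable def dfd (B : Subalgebra ℚ ℚ_[p]) : Subgroup (cong p n 1) :=
  (glB p n B).range.comap (toQp p n)

theorem dfd_mono {B B' : Subalgebra ℚ ℚ_[p]} (h : B ≤ B') : dfd p n B ≤ dfd p n B' := by
  rintro g ⟨x, hx⟩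
  refine ⟨GeneralLinearGroup.map (n := Fin n) (Subalgebra.inclusion h : B →+* B') x, ?_⟩
  rw [← hx]
  ext i j
  rfl

theorem exists_dfd (g : cong p n 1) : ∃ B : Subalgebra ℚ ℚ_[p], B.FG ∧ g ∈ dfd p n B := by
  classical
  refine ⟨Algebra.adjoin ℚ (((Finset.univ.image fun ij : Fin n × Fin n => toQp p n g ij.1 ij.2) ∪
    (Finset.univ.image fun ij : Fin n × Fin n => (toQp p n g)⁻¹ ij.1 ij.2) : Finset ℚ_[p]) :
      Set ℚ_[p]), Subalgebra.fg_adjoin_finset _, ?_⟩
  refine mem_glB p n _ _ (fun i j => Algebra.subset_adjoin ?_) (fun i j => Algebra.subset_adjoin ?_)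
  · rw [Finset.coe_union]
    exact Or.inl (Finset.mem_coe.2 (Finset.mem_image.2 ⟨(i, j), Finset.mem_univ _, rfl⟩))
  · rw [Finset.coe_union]
    exact Or.inr (Finset.mem_coe.2 (Finset.mem_image.2 ⟨(i, j), Finset.mem_univ _, rfl⟩))

theorem exists_dfd_finset {Y : Type} [Finite Y] (g : Y → cong p n 1) (B0 : Subalgebra ℚ ℚ_[p])
    (hB0 : B0.FG) :
    ∃ B : Subalgebra ℚ ℚ_[p], B.FG ∧ B0 ≤ B ∧ ∀ y, g y ∈ dfd p n B := by
  classical
  cases nonempty_fintype Y
  choose B hB hg using fun y => exists_dfd p n (g y)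
  have h : ∀ s : Finset Y, ∃ B' : Subalgebra ℚ ℚ_[p], B'.FG ∧ B0 ≤ B' ∧ ∀ y ∈ s, B y ≤ B' := by
    intro s
    induction s using Finset.induction_on with
    | empty => exact ⟨B0, hB0, le_rfl, by simp⟩
    | insert a s _ ih =>
      obtain ⟨B', h1, h2, h3⟩ := ih
      refine ⟨B' ⊔ B a, Subalgebra.FG.sup h1 (hB a), h2.trans le_sup_left, ?_⟩
      intro y hy
      rcases Finset.mem_insert.1 hy with rfl | hy
      · exact le_sup_right
      · exact (h3 y hy).trans le_sup_left
  obtain ⟨B', h1, h2, h3⟩ := h Finset.univ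
  exact ⟨B', h1, h2, fun y => dfd_mono p n (h3 y (Finset.mem_univ _)) (hg y)⟩

/-- **specialization**: a finitely generated algebra has a point over a number field -/
theorem specialize (B : Subalgebra ℚ ℚ_[p]) (hB : B.FG) :
    ∃ (k : Type) (_ : Field k) (_ : NumberField k) (Φ : dfd p n B →* GL (Fin n) k),
      ∀ g : dfd p n B, (∀ i j, ∃ q : ℚ, toQp p n g.1 i j = (q : ℚ_[p])) → Φ g = 1 → g = 1 := by
  classical
  obtain ⟨m, hm⟩ := Ideal.exists_maximal B
  let k := B ⧸ m
  letI : Field k := Ideal.Quotient.field m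
  haveI : Algebra.FiniteType ℚ B := Subalgebra.fg_iff_finiteType B |>.1 hB
  let al : Algebra ℚ k := Ideal.Quotient.algebra ℚ
  have hft : @Algebra.FiniteType ℚ k _ _ al := Algebra.FiniteType.of_surjective
    (Ideal.Quotient.mkₐ ℚ m) (Ideal.Quotient.mkₐ_surjective ℚ m)
  have hfin : @Module.Finite ℚ k _ _ al.toModule := @finite_of_finite_type_of_isJacobsonRing ℚ k _ _
    al _ hft
  haveI : CharZero k := @charZero_of_injective_algebraMap ℚ k _ _ al (@algebraMap ℚ k _ _ al).injective _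
  have e : al = DivisionRing.toRatAlgebra := Subsingleton.elim _ _
  rw [e] at hfin
  haveI : NumberField k :=
    { to_charZero := inferInstance
      to_finiteDimensional := hfin }
  let ι : (dfd p n B) →* (glB p n B).range :=
    { toFun := fun g => ⟨toQp p n g.1, g.2⟩
      map_one' := Subtype.ext (map_one _)
      map_mul' := fun a b => Subtype.ext (map_mul _ _ _) }
  let e := MonoidHom.ofInjective (glB_injective p n B)
  let Φ : dfd p n B →* GL (Fin n) k :=
    (GeneralLinearGroup.map (n := Fin n) (Ideal.Quotient.mk m)).comp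
      (e.symm.toMonoidHom.comp ι)
  refine ⟨k, inferInstance, inferInstance, Φ, ?_⟩
  intro g hg hΦ
  have h1 : glB p n B (e.symm (ι g)) = toQp p n g.1 := by
    have h2 : e (e.symm (ι g)) = ι g := e.apply_symm_apply _
    exact congrArg Subtype.val h2
  have h2 : ∀ i j, (e.symm (ι g)) i j = (1 : GL (Fin n) B) i j := by
    intro i j
    obtain ⟨q, hq⟩ := hg i j
    have h3 : (e.symm (ι g)) i j = algebraMap ℚ B q := by
      apply Subtype.ext
      have h4 := congrArg (fun z : GL (Fin n) ℚ_[p] => z i j) h1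
      have h5 : (((e.symm (ι g)) i j : B) : ℚ_[p]) = toQp p n g.1 i j := h4
      rw [h5, hq]
      rfl
    have h6 : (Ideal.Quotient.mk m) ((e.symm (ι g)) i j) = (1 : GL (Fin n) k) i j :=
      congrArg (fun z : GL (Fin n) k => z i j) hΦ
    rw [h3] at h6 ⊢
    have h7 : (algebraMap ℚ k) q = (1 : GL (Fin n) k) i j := by
      rw [← h6]
      have h8 : (algebraMap ℚ k) = (Ideal.Quotient.mk m : B →+* k).comp (algebraMap ℚ B) :=
        Subsingleton.elim _ _
      rw [h8]
      rfl
    have h8 : q = (1 : Matrix (Fin n) (Fin n) ℚ) i j := by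
      apply (algebraMap ℚ k).injective
      rw [h7]
      change (1 : Matrix (Fin n) (Fin n) k) i j = _
      rw [Matrix.one_apply, Matrix.one_apply]
      split_ifs <;> simp
    rw [h8]
    change _ = (1 : Matrix (Fin n) (Fin n) B) i j
    rw [Matrix.one_apply, Matrix.one_apply]
    split_ifs <;> simp
  have h3 : e.symm (ι g) = 1 := by
    ext i j
    exact congrArg Subtype.val (h2 i j)
  have h4 : toQp p n g.1 = 1 := by
    rw [← h1, h3, map_one]
  exact Subtype.ext (toQp_injective p n (h4.trans (map_one _).symm))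

end

end Pool.Agent.Helper38.NS
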