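import Pool.Agent.Helper38.NS.NF

/-!
# Systems of equations over groups: independence of the exponents

Owner helper38.
-/

set_option autoImplicit false

namespace Pool.Agent.Helper38.NS

open Matrix Monoid

section gen

variable {H Y : Type} [Group H]

theorem mem_of_gen {L : Type} [Group L] (N : Subgroup L) (ρ : Coprod H (FreeGroup Y) →* L)
    (h1 : ∀ h, ρ (Coprod.inl h) ∈ N) (h2 : ∀ y, ρ (Coprod.inr (FreeGroup.of y)) ∈ N)
    (x : Coprod H (FreeGroup Y)) : ρ x ∈ N := by
  induction x using Monoid.Coprod.induction_on with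
  | inl h => exact h1 h
  | inr b =>
    have h3 : (ρ.comp (Coprod.inr (M := H) (N := FreeGroup Y))).range ≤ N := by
      rw [MonoidHom.range_eq_map, ← FreeGroup.closure_range_of, MonoidHom.map_closure,
        Subgroup.closure_le]
      rintro _ ⟨_, ⟨y, rfl⟩, rfl⟩
      exact h2 y
    exact h3 ⟨b, rfl⟩
  | mul x y hx hy => rw [map_mul]; exact mul_mem hx hy

theorem eq_of_gen {L : Type} [Monoid L] (ρ ρ' : Coprod H (FreeGroup Y) →* L)
    (h1 : ∀ h, ρ (Coprod.inl h) = ρ' (Coprod.inl h))
    (h2 : ∀ y, ρ (Coprod.inr (FreeGroup.of y)) = ρ' (Coprod.inr (FreeGroup.of y))) : ρ = ρ' := by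
  apply Monoid.Coprod.hom_ext
  · ext h
    exact h1 h
  · apply FreeGroup.ext_hom
    intro y
    exact h2 y

/-- kill the variables outside of `S` -/
noncomputable def kill (H : Type) {Y : Type} [Group H] (S : Finset Y) :
    Coprod H (FreeGroup Y) →* Coprod H (FreeGroup S) := by
  classical
  exact Coprod.lift Coprod.inl (FreeGroup.lift fun y =>
    if h : y ∈ S then Coprod.inr (FreeGroup.of ⟨y, h⟩) else 1)

/-- the inclusion of the variables in `S` -/
noncomputable def incl (H : Type) {Y : Type} [Group H] (S : Finset Y) :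
    Coprod H (FreeGroup S) →* Coprod H (FreeGroup Y) :=
  Coprod.lift Coprod.inl (FreeGroup.lift fun y => Coprod.inr (FreeGroup.of y.1))

@[simp] theorem kill_inl (S : Finset Y) (h : H) : kill H S (Coprod.inl h) = Coprod.inl h := by
  classical
  unfold kill
  rw [Monoid.Coprod.lift_apply_inl]

theorem kill_of (S : Finset Y) (y : Y) (hy : y ∈ S) :
    kill H S (Coprod.inr (FreeGroup.of y)) = Coprod.inr (FreeGroup.of ⟨y, hy⟩) := by
  classical
  unfold kill
  rw [Monoid.Coprod.lift_apply_inr, FreeGroup.lift_apply_of, dif_pos hy]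

theorem kill_of_not (S : Finset Y) (y : Y) (hy : y ∉ S) :
    kill H S (Coprod.inr (FreeGroup.of y)) = 1 := by
  classical
  unfold kill
  rw [Monoid.Coprod.lift_apply_inr, FreeGroup.lift_apply_of, dif_neg hy]

@[simp] theorem incl_inl (S : Finset Y) (h : H) : incl H S (Coprod.inl h) = Coprod.inl h := by
  unfold incl
  rw [Monoid.Coprod.lift_apply_inl]

@[simp] theorem incl_of (S : Finset Y) (y : S) :
    incl H S (Coprod.inr (FreeGroup.of y)) = Coprod.inr (FreeGroup.of y.1) := by
  unfold incl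
  rw [Monoid.Coprod.lift_apply_inr, FreeGroup.lift_apply_of]

theorem exists_support (x : Coprod H (FreeGroup Y)) :
    ∃ S : Finset Y, ∀ S' : Finset Y, S ⊆ S' → incl H S' (kill H S' x) = x := by
  classical
  let P : Subgroup (Coprod H (FreeGroup Y)) :=
    { carrier := {x | ∃ S : Finset Y, ∀ S' : Finset Y, S ⊆ S' → incl H S' (kill H S' x) = x}
      one_mem' := ⟨∅, fun _ _ => by rw [map_one, map_one]⟩
      mul_mem' := by
        rintro a b ⟨S, hS⟩ ⟨T, hT⟩
        refine ⟨S ∪ T, fun S' h => ?_⟩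
        rw [map_mul, map_mul, hS S' (Finset.union_subset_left h), hT S' (Finset.union_subset_right h)]
      inv_mem' := by
        rintro a ⟨S, hS⟩
        refine ⟨S, fun S' h => ?_⟩
        rw [map_inv, map_inv, hS S' h] }
  apply mem_of_gen P (MonoidHom.id _)
  · intro h
    exact ⟨∅, fun S' _ => by simp⟩
  · intro y
    refine ⟨{y}, fun S' h => ?_⟩
    have hy : y ∈ S' := h (Finset.mem_singleton_self y)
    simp [kill_of S' y hy]

theorem exists_support_fin {R : Type} [Finite R] (w : R → Coprod H (FreeGroup Y)) :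
    ∃ S : Finset Y, ∀ r, incl H S (kill H S (w r)) = w r := by
  classical
  cases nonempty_fintype R
  choose S hS using fun r => exists_support (w r)
  exact ⟨Finset.univ.biUnion S, fun r => hS r _ (Finset.subset_biUnion_of_mem S (Finset.mem_univ r))⟩

/-- The elements `w r` of `H * F(Y)` are independent with coefficients in `A`: arbitrary values at the
`w r` are taken by some homomorphism to `A` that is trivial on `H`. -/
def Indep (A : Type) [AddGroup A] {R : Type} (w : R → Coprod H (FreeGroup Y)) : Prop :=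
  ∀ c : R → A, ∃ ψ : Coprod H (FreeGroup Y) →* Multiplicative A, (∀ h, ψ (Coprod.inl h) = 1) ∧
    ∀ r, ψ (w r) = Multiplicative.ofAdd (c r)

/-- independence modulo `p`, with integral homomorphisms -/
def IndepP (p : ℕ) {R : Type} (w : R → Coprod H (FreeGroup Y)) : Prop :=
  ∃ ψ : R → (Coprod H (FreeGroup Y) →* Multiplicative ℤ), (∀ r h, ψ r (Coprod.inl h) = 1) ∧
    (∀ r, (p : ℤ) ∣ Multiplicative.toAdd (ψ r (w r)) - 1) ∧
    ∀ r r', r ≠ r' → (p : ℤ) ∣ Multiplicative.toAdd (ψ r' (w r))

theorem indepP_of_zmod (p : ℕ) [Fact p.Prime] {R : Type} (w : R → Coprod H (FreeGroup Y))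
    (hw : Indep (ZMod p) w) : IndepP p w := by
  classical
  choose ψ hψ1 hψ2 using fun r0 : R => hw (fun r => if r = r0 then 1 else 0)
  let Ψ : R → (Coprod H (FreeGroup Y) →* Multiplicative ℤ) := fun r =>
    Coprod.lift 1 (FreeGroup.lift fun y => Multiplicative.ofAdd
      ((Multiplicative.toAdd (ψ r (Coprod.inr (FreeGroup.of y)))).val : ℤ))
  have hc : ∀ r, (AddMonoidHom.toMultiplicative (Int.castAddHom (ZMod p))).comp (Ψ r) = ψ r := by
    intro r
    apply eq_of_gen
    · intro h
      rw [hψ1]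
      change AddMonoidHom.toMultiplicative (Int.castAddHom (ZMod p)) (Coprod.lift _ _ _) = _
      rw [Monoid.Coprod.lift_apply_inl]
      exact map_one _
    · intro y
      change AddMonoidHom.toMultiplicative (Int.castAddHom (ZMod p)) (Coprod.lift _ _ _) = _
      rw [Monoid.Coprod.lift_apply_inr, FreeGroup.lift_apply_of]
      change Multiplicative.ofAdd ((((Multiplicative.toAdd
        (ψ r (Coprod.inr (FreeGroup.of y)))).val : ℤ)) : ZMod p) = _
      simp
  have hv : ∀ r x, ((Multiplicative.toAdd (Ψ r x) : ℤ) : ZMod p) = Multiplicative.toAdd (ψ r x) := by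
    intro r x
    rw [← hc r]
    rfl
  refine ⟨Ψ, fun r h => Monoid.Coprod.lift_apply_inl _ _ _, fun r => ?_, fun r r' hr => ?_⟩
  · rw [← ZMod.intCast_zmod_eq_zero_iff_dvd, Int.cast_sub, hv, hψ2]
    simp
  · rw [← ZMod.intCast_zmod_eq_zero_iff_dvd, hv, hψ2, if_neg hr]
    rfl

theorem indepP_of_rat {R : Type} [Finite R] (w : R → Coprod H (FreeGroup Y)) (hw : Indep ℚ w) :
    ∃ N : ℕ, N ≠ 0 ∧ ∀ p : ℕ, p.Prime → ¬ p ∣ N → IndepP p w := by
  classical
  cases nonempty_fintype R
  obtain ⟨S, hS⟩ := exists_support_fin w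
  choose ψ hψ1 hψ2 using fun r0 : R => hw (fun r => if r = r0 then 1 else 0)
  let v : R → Y → ℚ := fun r y => Multiplicative.toAdd (ψ r (Coprod.inr (FreeGroup.of y)))
  let N : ℕ := ∏ r, ∏ y ∈ S, (v r y).den
  have hN : N ≠ 0 := Finset.prod_ne_zero_iff.2 fun r _ => Finset.prod_ne_zero_iff.2
    fun y _ => (v r y).den_nz
  have hz : ∀ r y, y ∈ S → ∃ z : ℤ, (z : ℚ) = N * v r y := by
    intro r y hy
    have h1 : (v r y).den ∣ N :=
      (Finset.dvd_prod_of_mem (fun y => (v r y).den) hy).trans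
        (Finset.dvd_prod_of_mem (fun r => ∏ y ∈ S, (v r y).den) (Finset.mem_univ r))
    obtain ⟨m, hm⟩ := h1
    refine ⟨m * (v r y).num, ?_⟩
    rw [hm]
    push_cast
    have h2 : ((v r y).den : ℚ) * v r y = (v r y).num := by
      rw [mul_comm]
      exact Rat.mul_den_eq_num _
    rw [mul_comm ((v r y).den : ℚ), mul_assoc, h2]
  choose z hz using hz
  let Ψ : R → (Coprod H (FreeGroup Y) →* Multiplicative ℤ) := fun r =>
    Coprod.lift 1 (FreeGroup.lift fun y => Multiplicative.ofAdd
      (if h : y ∈ S then z r y h else 0))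
  have hΨ : ∀ r x, ((Multiplicative.toAdd (Ψ r x) : ℤ) : ℚ) =
      N * Multiplicative.toAdd (ψ r (incl H S (kill H S x))) := by
    intro r
    have h1 : (AddMonoidHom.toMultiplicative (Int.castAddHom ℚ)).comp (Ψ r) =
        (AddMonoidHom.toMultiplicative (AddMonoidHom.mulLeft (N : ℚ))).comp
          ((ψ r).comp ((incl H S).comp (kill H S))) := by
      apply eq_of_gen
      · intro h
        change AddMonoidHom.toMultiplicative (Int.castAddHom ℚ) (Coprod.lift _ _ _) =
          (AddMonoidHom.toMultiplicative (AddMonoidHom.mulLeft (N : ℚ)))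
            (ψ r (incl H S (kill H S (Coprod.inl h))))
        rw [Monoid.Coprod.lift_apply_inl, kill_inl, incl_inl, hψ1]
        simp
      · intro y
        change AddMonoidHom.toMultiplicative (Int.castAddHom ℚ) (Coprod.lift _ _ _) =
          (AddMonoidHom.toMultiplicative (AddMonoidHom.mulLeft (N : ℚ)))
            (ψ r (incl H S (kill H S (Coprod.inr (FreeGroup.of y)))))
        rw [Monoid.Coprod.lift_apply_inr, FreeGroup.lift_apply_of]
        by_cases hy : y ∈ S
        · rw [kill_of S y hy, incl_of, dif_pos hy]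
          change Multiplicative.ofAdd ((z r y hy : ℤ) : ℚ) = _
          rw [hz]
          rfl
        · rw [kill_of_not S y hy, dif_neg hy, map_one, map_one, map_one]
          change Multiplicative.ofAdd ((0 : ℤ) : ℚ) = _
          rw [Int.cast_zero]
          rfl
    intro x
    exact congrArg Multiplicative.toAdd (DFunLike.congr_fun h1 x)
  have hΨw : ∀ r r', Multiplicative.toAdd (Ψ r' (w r)) = if r = r' then (N : ℤ) else 0 := by
    intro r r'
    have h1 := hΨ r' (w r)
    rw [hS, hψ2, toAdd_ofAdd] at h1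
    have h2 : ((Multiplicative.toAdd (Ψ r' (w r)) : ℤ) : ℚ) = ((if r = r' then (N : ℤ) else 0 : ℤ) : ℚ) := by
      rw [h1]
      split_ifs <;> simp
    exact_mod_cast h2
  refine ⟨N, hN, fun p hp hpN => ?_⟩
  have hcop : IsCoprime (N : ℤ) (p : ℤ) := by
    rw [Nat.isCoprime_iff_coprime]
    exact ((Nat.Prime.coprime_iff_not_dvd hp).2 hpN).symm
  obtain ⟨a, b, hab⟩ := hcop
  refine ⟨fun r => (zpowersHom (Multiplicative ℤ) (Multiplicative.ofAdd a)).comp (Ψ r), ?_, ?_, ?_⟩
  · intro r h
    have : Ψ r (Coprod.inl h) = 1 := Monoid.Coprod.lift_apply_inl _ _ _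
    change zpowersHom (Multiplicative ℤ) (Multiplicative.ofAdd a) (Ψ r (Coprod.inl h)) = 1
    rw [this, map_one]
  · intro r
    change (p : ℤ) ∣ Multiplicative.toAdd ((Multiplicative.ofAdd a) ^ (Multiplicative.toAdd (Ψ r (w r)))) - 1
    rw [hΨw, if_pos rfl, toAdd_zpow, toAdd_ofAdd, smul_eq_mul]
    exact ⟨-b, by linarith⟩
  · intro r r' hr
    change (p : ℤ) ∣ Multiplicative.toAdd ((Multiplicative.ofAdd a) ^ (Multiplicative.toAdd (Ψ r' (w r))))
    rw [hΨw, if_neg hr, zpow_zero]
    simp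

end gen

section ext

variable (p : ℕ) [Fact p.Prime] {H Y R : Type} [Group H] [Finite R]

/-- independent systems can be solved in the congruence subgroups, over finitely generated algebras -/
theorem solve_dfd (w : R → Coprod H (FreeGroup Y)) (hw : IndepP p w) (n : ℕ)
    (B : Subalgebra ℚ ℚ_[p]) (hB : B.FG) (f : H →* cong p n 1) (hf : ∀ h, f h ∈ dfd p n B) :
    ∃ (B' : Subalgebra ℚ ℚ_[p]) (ρ : Coprod H (FreeGroup Y) →* cong p n 1), B'.FG ∧ B ≤ B' ∧
      (∀ h, ρ (Coprod.inl h) = f h) ∧ (∀ r, ρ (w r) = 1) ∧ ∀ x, ρ x ∈ dfd p n B' := by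
  classical
  cases nonempty_fintype R
  obtain ⟨S, hS⟩ := exists_support_fin w
  obtain ⟨ψ, h1, h2, h3⟩ := hw
  obtain ⟨ρ, hρ1, hρ2⟩ := solve (congFilt p n) (fun r => kill H S (w r))
    (fun r => (ψ r).comp (incl H S)) (by
      intro r h
      change ψ r (incl H S _) = 1
      rw [incl_inl, h1]) (by
      intro r
      change (p : ℤ) ∣ Multiplicative.toAdd (ψ r (incl H S (kill H S (w r)))) - 1
      rw [hS]
      exact h2 r) (by
      intro r r' hr
      change (p : ℤ) ∣ Multiplicative.toAdd (ψ r' (incl H S (kill H S (w r))))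
      rw [hS]
      exact h3 r r' hr) f
  obtain ⟨B', hB', hBB', hg⟩ := exists_dfd_finset p n
    (fun y : S => ρ (Coprod.inr (FreeGroup.of y))) B hB
  refine ⟨B', ρ.comp (kill H S), hB', hBB', ?_, hρ2, ?_⟩
  · intro h
    change ρ (kill H S _) = _
    rw [kill_inl, hρ1]
  · intro x
    exact mem_of_gen _ ρ (fun h => by rw [hρ1]; exact dfd_mono p n hBB' (hf h)) hg _

/-- homomorphisms to congruence subgroups extend along `φ` -/
def Extends {G : Type} [Group G] (φ : H →* G) : Prop :=
  ∀ (n : ℕ) (B : Subalgebra ℚ ℚ_[p]), B.FG → ∀ f : H →* cong p n 1, (∀ h, f h ∈ dfd p n B) →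
    ∃ (B' : Subalgebra ℚ ℚ_[p]) (f' : G →* cong p n 1), B'.FG ∧ B ≤ B' ∧ (∀ h, f' (φ h) = f h) ∧
      ∀ g, f' g ∈ dfd p n B'

theorem extends_of_pres (w : R → Coprod H (FreeGroup Y)) (hw : IndepP p w) {G : Type} [Group G]
    (φ : H →* G) (π : G →* Coprod H (FreeGroup Y) ⧸ Subgroup.normalClosure (Set.range w))
    (hπ : ∀ h, π (φ h) = QuotientGroup.mk' _ (Coprod.inl h)) : Extends p φ := by
  intro n B hB f hf
  obtain ⟨B', ρ, hB', hBB', h1, h2, h3⟩ := solve_dfd p w hw n B hB f hf
  have h4 : Subgroup.normalClosure (Set.range w) ≤ ρ.ker := by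
    apply Subgroup.normalClosure_le_normal
    rintro _ ⟨r, rfl⟩
    exact h2 r
  refine ⟨B', (QuotientGroup.lift _ ρ h4).comp π, hB', hBB', ?_, ?_⟩
  · intro h
    change QuotientGroup.lift _ ρ h4 (π (φ h)) = _
    rw [hπ]
    exact h1 h
  · intro g
    obtain ⟨x, hx⟩ := QuotientGroup.mk'_surjective _ (π g)
    change QuotientGroup.lift _ ρ h4 (π g) ∈ _
    rw [← hx]
    exact h3 x

end ext

end Pool.Agent.Helper38.NS
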