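import Mathlib

/-!
# Nonsingular systems of equations over complete groups with a `p`-central filtration

Owner helper38.
-/

set_option autoImplicit false

namespace Pool.Agent.Helper38.NS

open Monoid
open scoped IsMulCommutative

/-- a complete filtration of the group `Γ` with central quotients of exponent `p` -/
structure Filt (p : ℕ) (Γ : Type) [Group Γ] where
  /-- the terms -/
  K : ℕ → Subgroup Γ
  norm : ∀ k, (K k).Normal
  top : K 0 = ⊤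
  anti : ∀ k, K (k + 1) ≤ K k
  comm : ∀ k, ∀ g : Γ, ∀ h ∈ K k, g * h * g⁻¹ * h⁻¹ ∈ K (k + 1)
  pow : ∀ k, ∀ h ∈ K k, h ^ p ∈ K (k + 1)
  sep : ∀ g : Γ, (∀ k, g ∈ K k) → g = 1
  compl : ∀ u : ℕ → Γ, (∀ k, (u k)⁻¹ * u (k + 1) ∈ K k) → ∃ g, ∀ k, (u k)⁻¹ * g ∈ K k

section

variable {p : ℕ} {Γ : Type} [Group Γ] (𝓕 : Filt p Γ)
variable {H Y R : Type} [Group H] [Fintype R]

/-- two homomorphisms on `H * F(Y)` agree modulo a normal subgroup if they do so on the generators -/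
theorem agree_of_gen {L : Type} [Group L] (N : Subgroup L) [N.Normal]
    (ρ ρ' : Coprod H (FreeGroup Y) →* L)
    (h1 : ∀ h, (ρ (Coprod.inl h))⁻¹ * ρ' (Coprod.inl h) ∈ N)
    (h2 : ∀ y, (ρ (Coprod.inr (FreeGroup.of y)))⁻¹ * ρ' (Coprod.inr (FreeGroup.of y)) ∈ N)
    (x : Coprod H (FreeGroup Y)) : (ρ x)⁻¹ * ρ' x ∈ N := by
  have h3 : (QuotientGroup.mk' N).comp ρ = (QuotientGroup.mk' N).comp ρ' := by
    apply Monoid.Coprod.hom_ext
    · ext h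
      exact QuotientGroup.eq.2 (h1 h)
    · apply FreeGroup.ext_hom
      intro y
      exact QuotientGroup.eq.2 (h2 y)
  exact QuotientGroup.eq.1 (DFunLike.congr_fun h3 x)

/-- one step of the approximation -/
theorem step (w : R → Coprod H (FreeGroup Y)) (ψ : R → (Coprod H (FreeGroup Y) →* Multiplicative ℤ))
    (hψH : ∀ r h, ψ r (Coprod.inl h) = 1)
    (hψ : ∀ r, (p : ℤ) ∣ Multiplicative.toAdd (ψ r (w r)) - 1)
    (hψ' : ∀ r r', r ≠ r' → (p : ℤ) ∣ Multiplicative.toAdd (ψ r' (w r)))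
    (f : H →* Γ) (k : ℕ) (ρ : Coprod H (FreeGroup Y) →* Γ) (hρ : ∀ h, ρ (Coprod.inl h) = f h)
    (hρw : ∀ r, ρ (w r) ∈ 𝓕.K k) :
    ∃ ρ' : Coprod H (FreeGroup Y) →* Γ, (∀ h, ρ' (Coprod.inl h) = f h) ∧
      (∀ y, (ρ (Coprod.inr (FreeGroup.of y)))⁻¹ * ρ' (Coprod.inr (FreeGroup.of y)) ∈ 𝓕.K k) ∧
      ∀ r, ρ' (w r) ∈ 𝓕.K (k + 1) := by
  classical
  have := 𝓕.norm (k + 1)
  let q : Γ →* Γ ⧸ 𝓕.K (k + 1) := QuotientGroup.mk' (𝓕.K (k + 1))
  have hcen : ∀ x ∈ 𝓕.K k, q x ∈ Subgroup.center (Γ ⧸ 𝓕.K (k + 1)) := by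
    intro x hx
    rw [Subgroup.mem_center_iff]
    intro g
    obtain ⟨g, rfl⟩ := QuotientGroup.mk'_surjective _ g
    have h1 : q (g * x * g⁻¹ * x⁻¹) = 1 := (QuotientGroup.eq_one_iff _).2 (𝓕.comm k g x hx)
    rw [map_mul, map_mul, map_mul, map_inv, map_inv, mul_inv_eq_one, mul_inv_eq_iff_eq_mul] at h1
    exact h1
  let c : R → Subgroup.center (Γ ⧸ 𝓕.K (k + 1)) := fun r => ⟨q (ρ (w r)), hcen _ (hρw r)⟩
  have hc : ∀ r, c r ^ p = 1 := by
    intro r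
    apply Subtype.ext
    change q (ρ (w r)) ^ p = 1
    rw [← map_pow]
    exact (QuotientGroup.eq_one_iff _).2 (𝓕.pow k _ (hρw r))
  let θ : Coprod H (FreeGroup Y) →* Subgroup.center (Γ ⧸ 𝓕.K (k + 1)) :=
    ∏ r, (zpowersHom _ (c r)⁻¹).comp (ψ r)
  have hθ : ∀ x, θ x = ∏ r, (c r)⁻¹ ^ (Multiplicative.toAdd (ψ r x)) := by
    intro x
    change (∏ r, (zpowersHom _ (c r)⁻¹).comp (ψ r)) x = _
    rw [MonoidHom.finsetProd_apply]
    rfl
  have hθH : ∀ h, θ (Coprod.inl h) = 1 := by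
    intro h
    rw [hθ]
    apply Finset.prod_eq_one
    intro r _
    rw [hψH]
    simp
  have hθw : ∀ r, θ (w r) = (c r)⁻¹ := by
    intro r
    rw [hθ, Finset.prod_eq_single r]
    · obtain ⟨b, hb⟩ := hψ r
      have h1 : Multiplicative.toAdd (ψ r (w r)) = 1 + p * b := by linarith
      rw [h1, zpow_add, zpow_one, zpow_mul, zpow_natCast, inv_pow, hc, inv_one, one_zpow, mul_one]
    · intro r' _ hr'
      obtain ⟨b, hb⟩ := hψ' r r' (Ne.symm hr')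
      rw [hb, zpow_mul, zpow_natCast, inv_pow, hc, inv_one, one_zpow]
    · intro h
      exact absurd (Finset.mem_univ r) h
  have hθK : ∀ x, ∃ z ∈ 𝓕.K k, q z = θ x := by
    intro x
    have h1 : θ x ∈ ((𝓕.K k).map q).comap (Subgroup.center (Γ ⧸ 𝓕.K (k + 1))).subtype := by
      rw [hθ]
      apply Subgroup.prod_mem
      intro r _
      apply Subgroup.zpow_mem
      apply Subgroup.inv_mem
      exact ⟨_, hρw r, rfl⟩
    obtain ⟨z, hz, hz'⟩ := h1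
    exact ⟨z, hz, hz'⟩
  -- the corrected homomorphism modulo the next term
  let μ : Coprod H (FreeGroup Y) →* Γ ⧸ 𝓕.K (k + 1) :=
    { toFun := fun x => q (ρ x) * (θ x : Γ ⧸ 𝓕.K (k + 1))
      map_one' := by simp
      map_mul' := by
        intro x y
        have h1 : (θ x : Γ ⧸ 𝓕.K (k + 1)) * q (ρ y) = q (ρ y) * (θ x : Γ ⧸ 𝓕.K (k + 1)) :=
          ((Subgroup.mem_center_iff.1 (θ x).2) (q (ρ y))).symm
        rw [map_mul, map_mul, map_mul, Subgroup.coe_mul]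
        calc q (ρ x) * q (ρ y) * ((θ x : Γ ⧸ 𝓕.K (k + 1)) * (θ y : Γ ⧸ 𝓕.K (k + 1)))
            = q (ρ x) * (q (ρ y) * (θ x : Γ ⧸ 𝓕.K (k + 1))) * (θ y : Γ ⧸ 𝓕.K (k + 1)) := by
              simp only [mul_assoc]
          _ = q (ρ x) * ((θ x : Γ ⧸ 𝓕.K (k + 1)) * q (ρ y)) * (θ y : Γ ⧸ 𝓕.K (k + 1)) := by rw [h1]
          _ = _ := by simp only [mul_assoc] }
  choose z hz hz' using fun y => hθK (Coprod.inr (FreeGroup.of y))
  let ρ' : Coprod H (FreeGroup Y) →* Γ :=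
    Coprod.lift f (FreeGroup.lift fun y => ρ (Coprod.inr (FreeGroup.of y)) * z y)
  have hρ'1 : ∀ h, ρ' (Coprod.inl h) = f h := fun h => Monoid.Coprod.lift_apply_inl _ _ _
  have hρ'2 : ∀ y, ρ' (Coprod.inr (FreeGroup.of y)) = ρ (Coprod.inr (FreeGroup.of y)) * z y := by
    intro y
    change Coprod.lift f (FreeGroup.lift fun y => ρ (Coprod.inr (FreeGroup.of y)) * z y) _ = _
    rw [Monoid.Coprod.lift_apply_inr, FreeGroup.lift_apply_of]
  have hμ : q.comp ρ' = μ := by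
    apply Monoid.Coprod.hom_ext
    · ext h
      change q (ρ' (Coprod.inl h)) = q (ρ (Coprod.inl h)) * (θ (Coprod.inl h) : Γ ⧸ 𝓕.K (k + 1))
      rw [hρ'1, hρ, hθH]
      simp
    · apply FreeGroup.ext_hom
      intro y
      change q (ρ' (Coprod.inr (FreeGroup.of y))) = q (ρ (Coprod.inr (FreeGroup.of y))) *
        (θ (Coprod.inr (FreeGroup.of y)) : Γ ⧸ 𝓕.K (k + 1))
      rw [hρ'2, map_mul, hz']
  refine ⟨ρ', hρ'1, fun y => ?_, fun r => ?_⟩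
  · rw [hρ'2, inv_mul_cancel_left]
    exact hz y
  · have h1 : q (ρ' (w r)) = q (ρ (w r)) * (θ (w r) : Γ ⧸ 𝓕.K (k + 1)) := DFunLike.congr_fun hμ (w r)
    rw [hθw] at h1
    have h2 : q (ρ' (w r)) = 1 := by
      rw [h1]
      change q (ρ (w r)) * (q (ρ (w r)))⁻¹ = 1
      rw [mul_inv_cancel]
    exact (QuotientGroup.eq_one_iff _).1 h2

include 𝓕 in
/-- **nonsingular systems can be solved** -/
theorem solve (w : R → Coprod H (FreeGroup Y)) (ψ : R → (Coprod H (FreeGroup Y) →* Multiplicative ℤ))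
    (hψH : ∀ r h, ψ r (Coprod.inl h) = 1)
    (hψ : ∀ r, (p : ℤ) ∣ Multiplicative.toAdd (ψ r (w r)) - 1)
    (hψ' : ∀ r r', r ≠ r' → (p : ℤ) ∣ Multiplicative.toAdd (ψ r' (w r)))
    (f : H →* Γ) :
    ∃ ρ : Coprod H (FreeGroup Y) →* Γ, (∀ h, ρ (Coprod.inl h) = f h) ∧ ∀ r, ρ (w r) = 1 := by
  classical
  let T : ℕ → Type := fun k => {ρ : Coprod H (FreeGroup Y) →* Γ //
    (∀ h, ρ (Coprod.inl h) = f h) ∧ ∀ r, ρ (w r) ∈ 𝓕.K k}
  have hstep : ∀ (k : ℕ) (ρ : T k), ∃ ρ' : T (k + 1),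
      ∀ y, (ρ.1 (Coprod.inr (FreeGroup.of y)))⁻¹ * ρ'.1 (Coprod.inr (FreeGroup.of y)) ∈ 𝓕.K k := by
    intro k ρ
    obtain ⟨ρ', h1, h2, h3⟩ := step 𝓕 w ψ hψH hψ hψ' f k ρ.1 ρ.2.1 ρ.2.2
    exact ⟨⟨ρ', h1, h3⟩, h2⟩
  choose nx hnx using hstep
  have t0 : T 0 := ⟨Coprod.lift f 1, fun h => Monoid.Coprod.lift_apply_inl _ _ _, fun r => by
    rw [𝓕.top]; trivial⟩
  let s : ∀ k, T k := fun k => Nat.rec (motive := T) t0 (fun k ρ => nx k ρ) k
  have hs : ∀ k y, ((s k).1 (Coprod.inr (FreeGroup.of y)))⁻¹ *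
      (s (k + 1)).1 (Coprod.inr (FreeGroup.of y)) ∈ 𝓕.K k := fun k y => hnx k (s k) y
  choose g hg using fun y => 𝓕.compl (fun k => (s k).1 (Coprod.inr (FreeGroup.of y)))
    (fun k => hs k y)
  let ρ : Coprod H (FreeGroup Y) →* Γ := Coprod.lift f (FreeGroup.lift g)
  have hρ1 : ∀ h, ρ (Coprod.inl h) = f h := fun h => Monoid.Coprod.lift_apply_inl _ _ _
  refine ⟨ρ, hρ1, fun r => 𝓕.sep _ fun k => ?_⟩
  have := 𝓕.norm k
  have h1 : ((s k).1 (w r))⁻¹ * ρ (w r) ∈ 𝓕.K k := by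
    apply agree_of_gen (𝓕.K k)
    · intro h
      rw [(s k).2.1, hρ1, inv_mul_cancel]
      exact one_mem _
    · intro y
      have h2 : ρ (Coprod.inr (FreeGroup.of y)) = g y := by
        change Coprod.lift f (FreeGroup.lift g) _ = _
        rw [Monoid.Coprod.lift_apply_inr, FreeGroup.lift_apply_of]
      rw [h2]
      exact hg y k
  have h2 := mul_mem ((s k).2.2 r) h1
  rwa [mul_inv_cancel_left] at h2

end

end Pool.Agent.Helper38.NS
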