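import Pool.Agent.Helper38.NS.Assemble

/-!
# Forests of groups

Owner helper38.
-/

set_option autoImplicit false

namespace Pool.Agent.Helper38.NS

open Matrix Monoid
open Pool.Agent.Y462.SS (Closed Wr)
open Pool.Agent.Y110.FJ (ClosedE)
open Pool.Agent.Y462.EI (MX cl)

section conn

variable {V E : Type} (s t : E → V)

/-- connected by the edges in `A` -/
def Conn (A : Set E) : V → V → Prop := Relation.EqvGen fun u v => ∃ e ∈ A, s e = u ∧ t e = v

/-- every edge is a bridge -/
def IsForest : Prop := ∀ e : E, ¬ Conn s t {e' | e' ≠ e} (s e) (t e)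

variable {s t}

theorem Conn.mono {A A' : Set E} (h : A ⊆ A') {u v : V} (huv : Conn s t A u v) : Conn s t A' u v := by
  induction huv with
  | rel a b hab =>
    obtain ⟨e, he, h1⟩ := hab
    exact Relation.EqvGen.rel _ _ ⟨e, h he, h1⟩
  | refl a => exact Relation.EqvGen.refl a
  | symm a b _ ih => exact Relation.EqvGen.symm _ _ ih
  | trans a b c _ _ ih1 ih2 => exact Relation.EqvGen.trans _ _ _ ih1 ih2

theorem Conn.refl (A : Set E) (u : V) : Conn s t A u u := Relation.EqvGen.refl u

theorem Conn.symm {A : Set E} {u v : V} (h : Conn s t A u v) : Conn s t A v u :=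
  Relation.EqvGen.symm _ _ h

theorem Conn.trans {A : Set E} {u v w : V} (h : Conn s t A u v) (h' : Conn s t A v w) : Conn s t A u w :=
  Relation.EqvGen.trans _ _ _ h h'

theorem Conn.edge {A : Set E} {e : E} (he : e ∈ A) : Conn s t A (s e) (t e) :=
  Relation.EqvGen.rel _ _ ⟨e, he, rfl, rfl⟩

end conn

section forest

variable (p : ℕ) [Fact p.Prime] (n : ℕ) {V E : Type} {G : V → Type} [∀ v, Group (G v)] (s t : E → V)
  (K : E → Type) [∀ e, Group (K e)] (a : ∀ e, K e →* G (s e)) (b : ∀ e, K e →* G (t e))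

/-- homomorphisms from one vertex group extend to a forest -/
theorem forest_hom (A : Finset E) (hA : ∀ e ∈ A, ¬ Conn s t {e' | e' ∈ A ∧ e' ≠ e} (s e) (t e))
    (ha : ∀ e ∈ A, Extends p (a e)) (hb : ∀ e ∈ A, Extends p (b e)) :
    ∀ (v0 : V) (B : Subalgebra ℚ ℚ_[p]), B.FG → ∀ f0 : G v0 →* cong p n 1, (∀ g, f0 g ∈ dfd p n B) →
      ∃ (B' : Subalgebra ℚ ℚ_[p]) (f : ∀ v, G v →* cong p n 1), B'.FG ∧ B ≤ B' ∧ f v0 = f0 ∧
        (∀ e ∈ A, ∀ k, f (s e) (a e k) = f (t e) (b e k)) ∧ ∀ v g, f v g ∈ dfd p n B' := by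
  classical
  induction A using Finset.induction_on with
  | empty =>
    intro v0 B hB f0 hf0
    refine ⟨B, Function.update (fun v => (1 : G v →* cong p n 1)) v0 f0, hB, le_rfl,
      Function.update_self _ _ _, by simp, ?_⟩
    intro v g
    by_cases hv : v = v0
    · subst hv
      rw [Function.update_self]
      exact hf0 g
    · rw [Function.update_of_ne hv]
      exact one_mem _
  | insert e A he ih =>
    have hA' : ∀ e' ∈ A, ¬ Conn s t {e'' | e'' ∈ A ∧ e'' ≠ e'} (s e') (t e') := by
      intro e' he' h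
      refine hA e' (Finset.mem_insert_of_mem he') (h.mono ?_)
      rintro e'' ⟨h1, h2⟩
      exact ⟨Finset.mem_insert_of_mem h1, h2⟩
    have hAe : ¬ Conn s t {e' | e' ∈ A} (s e) (t e) := by
      intro h
      refine hA e (Finset.mem_insert_self _ _) (h.mono ?_)
      intro e' h1
      refine ⟨Finset.mem_insert_of_mem h1, ?_⟩
      rintro rfl
      exact he h1
    have ih' := ih hA' (fun e' he' => ha e' (Finset.mem_insert_of_mem he'))
      (fun e' he' => hb e' (Finset.mem_insert_of_mem he'))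
    intro v0 B hB f0 hf0
    obtain ⟨B1, f, hB1, hBB1, hf1, hf2, hf3⟩ := ih' v0 B hB f0 hf0
    by_cases hv0 : Conn s t {e' | e' ∈ A} (t e) v0
    · -- `v0` is on the side of `t e`
      have hv1 : ¬ Conn s t {e' | e' ∈ A} (s e) v0 := fun h => hAe (h.trans hv0.symm)
      obtain ⟨B2, g, hB2, hB12, hg1, hg2⟩ := ha e (Finset.mem_insert_self _ _) n B1 hB1
        ((f (t e)).comp (b e)) (fun h => hf3 _ _)
      obtain ⟨B3, f', hB3, hB23, hf1', hf2', hf3'⟩ := ih' (s e) B2 hB2 g hg2
      refine ⟨B3, fun v => if Conn s t {e' | e' ∈ A} (s e) v then f' v else f v, hB3,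
        hBB1.trans (hB12.trans hB23), ?_, ?_, ?_⟩
      · change (if Conn s t {e' | e' ∈ A} (s e) v0 then f' v0 else f v0) = f0
        rw [if_neg hv1, hf1]
      · intro e' he' k
        change (if Conn s t {e' | e' ∈ A} (s e) (s e') then f' (s e') else f (s e')) (a e' k) =
          (if Conn s t {e' | e' ∈ A} (s e) (t e') then f' (t e') else f (t e')) (b e' k)
        rcases Finset.mem_insert.1 he' with rfl | he'
        · rw [if_pos (Conn.refl _ _), if_neg hAe, hf1']
          exact hg1 k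
        · by_cases hc : Conn s t {e' | e' ∈ A} (s e) (s e')
          · have hc' : Conn s t {e' | e' ∈ A} (s e) (t e') := hc.trans (Conn.edge he')
            rw [if_pos hc, if_pos hc']
            exact hf2' e' he' k
          · have hc' : ¬ Conn s t {e' | e' ∈ A} (s e) (t e') := fun h =>
              hc (h.trans (Conn.edge he').symm)
            rw [if_neg hc, if_neg hc']
            exact hf2 e' he' k
      · intro v g
        change (if Conn s t {e' | e' ∈ A} (s e) v then f' v else f v) g ∈ _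
        split_ifs
        · exact hf3' v g
        · exact dfd_mono p n (hB12.trans hB23) (hf3 v g)
    · -- `v0` is not on the side of `t e`
      obtain ⟨B2, g, hB2, hB12, hg1, hg2⟩ := hb e (Finset.mem_insert_self _ _) n B1 hB1
        ((f (s e)).comp (a e)) (fun h => hf3 _ _)
      obtain ⟨B3, f', hB3, hB23, hf1', hf2', hf3'⟩ := ih' (t e) B2 hB2 g hg2
      refine ⟨B3, fun v => if Conn s t {e' | e' ∈ A} (t e) v then f' v else f v, hB3,
        hBB1.trans (hB12.trans hB23), ?_, ?_, ?_⟩
      · change (if Conn s t {e' | e' ∈ A} (t e) v0 then f' v0 else f v0) = f0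
        rw [if_neg hv0, hf1]
      · intro e' he' k
        change (if Conn s t {e' | e' ∈ A} (t e) (s e') then f' (s e') else f (s e')) (a e' k) =
          (if Conn s t {e' | e' ∈ A} (t e) (t e') then f' (t e') else f (t e')) (b e' k)
        rcases Finset.mem_insert.1 he' with rfl | he'
        · rw [if_pos (Conn.refl _ _), if_neg fun h => hAe h.symm, hf1']
          exact (hg1 k).symm
        · by_cases hc : Conn s t {e' | e' ∈ A} (t e) (s e')
          · have hc' : Conn s t {e' | e' ∈ A} (t e) (t e') := hc.trans (Conn.edge he')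
            rw [if_pos hc, if_pos hc']
            exact hf2' e' he' k
          · have hc' : ¬ Conn s t {e' | e' ∈ A} (t e) (t e') := fun h =>
              hc (h.trans (Conn.edge he').symm)
            rw [if_neg hc, if_neg hc']
            exact hf2 e' he' k
      · intro v g
        change (if Conn s t {e' | e' ∈ A} (t e) v then f' v else f v) g ∈ _
        split_ifs
        · exact hf3' v g
        · exact dfd_mono p n (hB12.trans hB23) (hf3 v g)

end forest

/-- **forests of groups, local form** -/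
theorem forest_local (C : ∀ (G : Type) [Group G], Prop) (hC : ClosedE C) (hL : ∀ n : ℕ, C (GL (Fin n) ℚ))
    {V E : Type} {G : V → Type} [∀ v, Group (G v)] (hG : ∀ v, C (G v)) (s t : E → V)
    (H : E → Type) [∀ e, Group (H e)] (σ : ∀ e, H e →* G (s e)) (τ : ∀ e, H e →* G (t e))
    (hfor : IsForest s t)
    (hloc : ∀ F : Finset (Σ e, H e), ∃ (p : ℕ) (_ : Fact p.Prime) (K : E → Type) (_ : ∀ e, Group (K e))
      (j : ∀ e, K e →* H e), (∀ e, cl F e ≤ (j e).range) ∧
        ∀ e, (∃ h : H e, (⟨e, h⟩ : Σ e, H e) ∈ F) → Function.Injective (j e) ∧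
        Extends p ((σ e).comp (j e)) ∧ Extends p ((τ e).comp (j e)) ∧
        ∃ (n : ℕ) (f : K e →* cong p n 1), Function.Injective f ∧
          ∀ x i k, ∃ q : ℚ, toQp p n (f x) i k = (q : ℚ_[p])) :
    C (MX (fun e => (Monoid.CoprodI.of (i := t e)).comp (τ e))
      (fun e => (Monoid.CoprodI.of (i := s e)).comp (σ e))) := by
  classical
  apply assemble C hC hG s t H σ τ
  intro F e0
  by_cases he0 : e0 ∈ F.image (fun z => z.1)
  swap
  · have h5 : cl F e0 ≤ ⊥ := by
      unfold cl
      rw [Subgroup.closure_le]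
      intro z hz
      have hz' : (⟨e0, z⟩ : Σ e, H e) ∈ F := hz
      exact (he0 (Finset.mem_image.2 ⟨⟨e0, z⟩, hz', rfl⟩)).elim
    exact ⟨Multiplicative ℤ, inferInstance, fun v => 1, fun e => 1, hC.base.int,
      fun e h _ => by simp, fun h hh _ => Subgroup.mem_bot.1 (h5 hh)⟩
  obtain ⟨p, hp, K, hK, j, hj1, hj2⟩ := hloc F
  have hj2 := fun e (he : e ∈ F.image (fun z => z.1)) => hj2 e (by
    obtain ⟨⟨e', h⟩, h1, rfl⟩ := Finset.mem_image.1 he
    exact ⟨h, h1⟩)
  obtain ⟨hinj, hs, ht, n, f, hf, hfq⟩ := hj2 e0 he0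
  obtain ⟨B1, f1, hB1, -, hf1, hf1'⟩ := hs n ⊥ Subalgebra.fg_bot f (dfd_of_rat p n f hfq ⊥)
  obtain ⟨B2, f2, hB2, -, hf2, hf3, hf4⟩ := forest_hom p n s t K (fun e => (σ e).comp (j e))
    (fun e => (τ e).comp (j e)) (F.image fun z => z.1)
    (fun e he h => hfor e (h.mono fun e' h' => h'.2))
    (fun e he => (hj2 e he).2.1) (fun e he => (hj2 e he).2.2.1) (s e0) B1 hB1 f1 hf1'
  obtain ⟨k, hk1, hk2, Φ, hΦ⟩ := specialize p n B2 hB2
  refine ⟨GL (Fin n) k, inferInstance, fun v => Φ.comp ((f2 v).codRestrict _ (hf4 v)), fun e => 1,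
    nf_mem C hC.base hL k n, ?_, ?_⟩
  · intro e h hh
    rw [one_mul, mul_one]
    by_cases he : e ∈ F.image (fun z => z.1)
    · obtain ⟨x, rfl⟩ := hj1 e hh
      change Φ _ = Φ _
      congr 1
      apply Subtype.ext
      exact (hf3 e he x).symm
    · have h5 : cl F e ≤ ⊥ := by
        unfold cl
        rw [Subgroup.closure_le]
        intro z hz
        have hz' : (⟨e, z⟩ : Σ e, H e) ∈ F := hz
        exact (he (Finset.mem_image.2 ⟨⟨e, z⟩, hz', rfl⟩)).elim
      rw [Subgroup.mem_bot.1 (h5 hh)]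
      simp
  · intro h hh hfh
    obtain ⟨x, rfl⟩ := hj1 e0 hh
    have h1 : f2 (s e0) (σ e0 (j e0 x)) = f x := by
      rw [hf2]
      exact hf1 x
    have h2 := hΦ ((f2 (s e0)).codRestrict _ (hf4 (s e0)) (σ e0 (j e0 x))) (by
      intro i l
      obtain ⟨q, hq⟩ := hfq x i l
      refine ⟨q, ?_⟩
      change toQp p n (f2 (s e0) (σ e0 (j e0 x))) i l = _
      rw [h1, hq]) hfh
    have h3 : f2 (s e0) (σ e0 (j e0 x)) = 1 := congrArg Subtype.val h2
    rw [h1] at h3
    rw [hf (h3.trans (map_one f).symm), map_one]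

end Pool.Agent.Helper38.NS
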