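import Pool.Agent.Helper38.NS.Forest

/-!
# Forests of groups: free edge groups, and edge groups in congruence subgroups

Owner helper38.
-/

set_option autoImplicit false

namespace Pool.Agent.Helper38.NS

open Matrix Monoid
open Pool.Agent.Y462.SS (Closed Wr)
open Pool.Agent.Y110.FJ (ClosedE)
open Pool.Agent.Y462.EI (MX cl)

/-- every homomorphism `H → ℚ` extends to `Q` along `φ` -/
def RatInj {H Q : Type} [Group H] [Group Q] (φ : H →* Q) : Prop :=
  ∀ χ : H →* Multiplicative ℚ, ∃ ψ : Q →* Multiplicative ℚ, ∀ h, ψ (φ h) = χ h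

theorem extends_of_free {S0 : Type} [Finite S0] {G Q : Type} [Group G] [Group Q]
    (φ : FreeGroup S0 →* G) (π : G →* Q) (hQ : IndepRelators Q) (h : RatInj (π.comp φ)) :
    ∃ N : ℕ, N ≠ 0 ∧ ∀ (p : ℕ) [Fact p.Prime], ¬ p ∣ N → Extends p φ := by
  classical
  obtain ⟨X, R, hR, r, hr, ⟨θ⟩⟩ := hQ
  choose lf hlf using fun q : Q =>
    QuotientGroup.mk'_surjective (Subgroup.normalClosure (Set.range r)) (θ q)
  let L := Coprod (FreeGroup S0) (FreeGroup X)
  let w : R ⊕ S0 → L := fun z => match z with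
    | Sum.inl j => Coprod.inr (r j)
    | Sum.inr b => Coprod.inr (lf (π (φ (FreeGroup.of b)))) * (Coprod.inl (FreeGroup.of b))⁻¹
  have hw : Indep ℚ w := by
    intro c
    obtain ⟨ψ', h1⟩ := hr fun j => c (Sum.inl j)
    obtain ⟨ψ, h2⟩ := h (FreeGroup.lift fun b => Multiplicative.ofAdd
      (c (Sum.inr b) - Multiplicative.toAdd (ψ' (lf (π (φ (FreeGroup.of b)))))))
    let Ψ0 : FreeGroup X →* Multiplicative ℚ :=
      ψ' * (ψ.comp (θ.symm.toMonoidHom.comp (QuotientGroup.mk' _)))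
    have hΨ0 : ∀ u, Ψ0 u = ψ' u * ψ (θ.symm (QuotientGroup.mk' _ u)) := fun _ => rfl
    refine ⟨Coprod.lift 1 Ψ0, fun _ => Monoid.Coprod.lift_apply_inl _ _ _, ?_⟩
    rintro (j | b)
    · change Coprod.lift 1 Ψ0 (Coprod.inr (r j)) = _
      have h5 : (QuotientGroup.mk' (Subgroup.normalClosure (Set.range r))) (r j) = 1 :=
        (QuotientGroup.eq_one_iff _).2 (Subgroup.subset_normalClosure ⟨j, rfl⟩)
      rw [Monoid.Coprod.lift_apply_inr, hΨ0, h5, map_one, map_one, mul_one, h1]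
    · change Coprod.lift 1 Ψ0 (Coprod.inr (lf (π (φ (FreeGroup.of b)))) *
        (Coprod.inl (FreeGroup.of b))⁻¹) = _
      have h6 := h2 (FreeGroup.of b)
      rw [FreeGroup.lift_apply_of] at h6
      change ψ (π (φ (FreeGroup.of b))) = _ at h6
      rw [map_mul, map_inv, Monoid.Coprod.lift_apply_inr, Monoid.Coprod.lift_apply_inl, hΨ0, hlf,
        MulEquiv.symm_apply_apply, h6]
      apply Multiplicative.toAdd.injective
      simp only [toAdd_mul, toAdd_inv, toAdd_ofAdd, MonoidHom.one_apply, toAdd_one]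
      ring
  obtain ⟨N, hN, hNp⟩ := indepP_of_rat w hw
  refine ⟨N, hN, fun p hp hpN => ?_⟩
  have h4 : Subgroup.normalClosure (Set.range r) ≤
      ((QuotientGroup.mk' (Subgroup.normalClosure (Set.range w))).comp
        (Coprod.inr (M := FreeGroup S0) (N := FreeGroup X))).ker := by
    apply Subgroup.normalClosure_le_normal
    rintro _ ⟨j, rfl⟩
    exact (QuotientGroup.eq_one_iff _).2 (Subgroup.subset_normalClosure ⟨Sum.inl j, rfl⟩)
  apply extends_of_pres p w (hNp p hp.out hpN) φ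
    ((QuotientGroup.lift _ _ h4).comp (θ.toMonoidHom.comp π))
  intro g
  have h5 : ((QuotientGroup.lift _ _ h4).comp (θ.toMonoidHom.comp π)).comp φ =
      (QuotientGroup.mk' (Subgroup.normalClosure (Set.range w))).comp Coprod.inl := by
    apply FreeGroup.ext_hom
    intro b
    change QuotientGroup.lift _ _ h4 (θ (π (φ (FreeGroup.of b)))) = _
    rw [← hlf]
    change QuotientGroup.mk' _ (Coprod.inr (lf (π (φ (FreeGroup.of b))))) =
      QuotientGroup.mk' _ (Coprod.inl (FreeGroup.of b))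
    have h6 : (QuotientGroup.mk' (Subgroup.normalClosure (Set.range w))) (w (Sum.inr b)) = 1 :=
      (QuotientGroup.eq_one_iff _).2 (Subgroup.subset_normalClosure ⟨Sum.inr b, rfl⟩)
    change (QuotientGroup.mk' (Subgroup.normalClosure (Set.range w)))
      (Coprod.inr (lf (π (φ (FreeGroup.of b)))) * (Coprod.inl (FreeGroup.of b))⁻¹) = 1 at h6
    rw [map_mul, map_inv, mul_inv_eq_one] at h6
    exact h6
  exact DFunLike.congr_fun h5 g

/-- **forests with free edge groups which are injective in rational homology** -/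
theorem forest_free (C : ∀ (G : Type) [Group G], Prop) (hC : ClosedE C) (hL : ∀ n : ℕ, C (GL (Fin n) ℚ))
    {V E : Type} {G Q : V → Type} [∀ v, Group (G v)] [∀ v, Group (Q v)] (hG : ∀ v, C (G v))
    (hQ : ∀ v, IndepRelators (Q v)) (π : ∀ v, G v →* Q v) (s t : E → V) (B : E → Type)
    (σ : ∀ e, FreeGroup (B e) →* G (s e)) (τ : ∀ e, FreeGroup (B e) →* G (t e))
    (hfor : IsForest s t) (hσ : ∀ e, RatInj ((π (s e)).comp (σ e)))
    (hτ : ∀ e, RatInj ((π (t e)).comp (τ e))) :
    C (MX (fun e => (Monoid.CoprodI.of (i := t e)).comp (τ e))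
      (fun e => (Monoid.CoprodI.of (i := s e)).comp (σ e))) := by
  classical
  apply forest_local C hC hL hG s t (fun e => FreeGroup (B e)) σ τ hfor
  intro F
  obtain ⟨T, hT⟩ := exists_part B F
  let S0 : E → Type := fun e => {b : B e // (⟨e, b⟩ : Σ e, B e) ∈ T}
  have hS0 : ∀ e, Finite (S0 e) := by
    intro e
    have hinj : Function.Injective (fun b : S0 e => (⟨⟨e, b.1⟩, b.2⟩ : T)) := by
      intro a b hab
      have h1 : (⟨e, a.1⟩ : Σ e, B e) = ⟨e, b.1⟩ := congrArg Subtype.val hab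
      exact Subtype.ext (eq_of_heq (Sigma.mk.inj h1).2)
    exact Finite.of_injective _ hinj
  let j : ∀ e, FreeGroup (S0 e) →* FreeGroup (B e) := fun e => FreeGroup.map Subtype.val
  have hj : ∀ e, Function.Injective (j e) := fun e => FreeGroup.map_injective Subtype.val_injective
  -- characters of `FreeGroup (S0 e)` extend to `FreeGroup (B e)`
  have hext : ∀ e (χ : FreeGroup (S0 e) →* Multiplicative ℚ),
      ∃ χ' : FreeGroup (B e) →* Multiplicative ℚ, ∀ x, χ' (j e x) = χ x := by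
    intro e χ
    let χ' : FreeGroup (B e) →* Multiplicative ℚ := FreeGroup.lift fun b =>
      if hb : (⟨e, b⟩ : Σ e, B e) ∈ T then χ (FreeGroup.of ⟨b, hb⟩) else 1
    have h1 : χ'.comp (j e) = χ := by
      apply FreeGroup.ext_hom
      rintro ⟨b, hb⟩
      change χ' (FreeGroup.map Subtype.val (FreeGroup.of _)) = _
      rw [FreeGroup.map.of]
      change FreeGroup.lift _ (FreeGroup.of b) = _
      rw [FreeGroup.lift_apply_of, dif_pos hb]
    exact ⟨χ', fun x => DFunLike.congr_fun h1 x⟩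
  have hs : ∀ e, ∃ N : ℕ, N ≠ 0 ∧ ∀ (p : ℕ) [Fact p.Prime], ¬ p ∣ N → Extends p ((σ e).comp (j e)) := by
    intro e
    haveI := hS0 e
    apply extends_of_free _ (π (s e)) (hQ _)
    intro χ
    obtain ⟨χ', h1⟩ := hext e χ
    obtain ⟨ψ, h2⟩ := hσ e χ'
    exact ⟨ψ, fun x => (h2 (j e x)).trans (h1 x)⟩
  have ht : ∀ e, ∃ N : ℕ, N ≠ 0 ∧ ∀ (p : ℕ) [Fact p.Prime], ¬ p ∣ N → Extends p ((τ e).comp (j e)) := by
    intro e
    haveI := hS0 e
    apply extends_of_free _ (π (t e)) (hQ _)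
    intro χ
    obtain ⟨χ', h1⟩ := hext e χ
    obtain ⟨ψ, h2⟩ := hτ e χ'
    exact ⟨ψ, fun x => (h2 (j e x)).trans (h1 x)⟩
  choose Ns hNs hNs' using hs
  choose Nt hNt hNt' using ht
  let A : Finset E := F.image fun z => z.1
  let N : ℕ := (∏ e ∈ A, Ns e) * ∏ e ∈ A, Nt e
  have hN : N ≠ 0 := mul_ne_zero (Finset.prod_ne_zero_iff.2 fun e _ => hNs e)
    (Finset.prod_ne_zero_iff.2 fun e _ => hNt e)
  obtain ⟨p, hpN, hp⟩ := Nat.exists_infinite_primes (N + 1)
  haveI : Fact p.Prime := ⟨hp⟩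
  have hpN' : ¬ p ∣ N := fun h => by
    have := Nat.le_of_dvd (Nat.pos_of_ne_zero hN) h
    omega
  refine ⟨p, inferInstance, fun e => FreeGroup (S0 e), fun e => inferInstance, j, ?_, ?_⟩
  · intro e
    refine (hT e).trans ?_
    unfold part
    rw [Subgroup.closure_le]
    rintro _ ⟨b, hb, rfl⟩
    refine ⟨FreeGroup.of ⟨b, hb⟩, ?_⟩
    change FreeGroup.map Subtype.val (FreeGroup.of _) = _
    rw [FreeGroup.map.of]
  · rintro e ⟨h, he⟩
    have heA : e ∈ A := Finset.mem_image.2 ⟨⟨e, h⟩, he, rfl⟩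
    haveI := hS0 e
    refine ⟨hj e, hNs' e p fun h => hpN' ?_, hNt' e p fun h => hpN' ?_, free_cong p (S0 e)⟩
    · exact (h.trans (Finset.dvd_prod_of_mem Ns heA)).trans (dvd_mul_right _ _)
    · exact (h.trans (Finset.dvd_prod_of_mem Nt heA)).trans (dvd_mul_left _ _)

/-- `H` embeds in `GL_n(ℚ)` for some `n`, with matrices that are `p`-integral and congruent to the
identity matrix modulo `p` -/
def InLevel (p : ℕ) [Fact p.Prime] (H : Type) [Group H] : Prop :=
  ∃ (n : ℕ) (f : H →* GL (Fin n) ℚ), Function.Injective f ∧ ∀ h i j, ∃ x : ℤ_[p],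
    ((((f h : Matrix (Fin n) (Fin n) ℚ) i j : ℚ)) : ℚ_[p]) =
      (1 : Matrix (Fin n) (Fin n) ℚ_[p]) i j + p * x

theorem inLevel_cong (p : ℕ) [Fact p.Prime] (H : Type) [Group H] (h : InLevel p H) :
    ∃ (n : ℕ) (f : H →* cong p n 1), Function.Injective f ∧
      ∀ x i k, ∃ q : ℚ, toQp p n (f x) i k = (q : ℚ_[p]) := by
  classical
  obtain ⟨n, f, hf, hx⟩ := h
  choose x hx using hx
  let c : ℤ_[p] →+* ℚ_[p] := PadicInt.Coe.ringHom
  have hc : Function.Injective c := Subtype.val_injective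
  have hcm : Function.Injective (fun M : Matrix (Fin n) (Fin n) ℤ_[p] => c.mapMatrix M) := by
    intro M N h
    ext i j
    exact hc (congrArg (fun z : Matrix (Fin n) (Fin n) ℚ_[p] => z i j) h)
  let F : H →* Matrix (Fin n) (Fin n) ℚ_[p] :=
    { toFun := fun h => (Rat.castHom ℚ_[p]).mapMatrix (f h : Matrix (Fin n) (Fin n) ℚ)
      map_one' := by rw [map_one, Units.val_one, map_one]
      map_mul' := fun a b => by rw [map_mul, Units.val_mul, map_mul] }
  let M : H → Matrix (Fin n) (Fin n) ℤ_[p] := fun h => 1 + ((p : ℤ_[p]) ^ 1) • Matrix.of (x h)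
  have hM : ∀ h, c.mapMatrix (M h) = F h := by
    intro h
    ext i j
    change c (M h i j) = (((f h : Matrix (Fin n) (Fin n) ℚ) i j : ℚ) : ℚ_[p])
    rw [hx]
    change c ((1 + ((p : ℤ_[p]) ^ 1) • Matrix.of (x h) : Matrix (Fin n) (Fin n) ℤ_[p]) i j) = _
    rw [Matrix.add_apply, Matrix.smul_apply, Matrix.of_apply, smul_eq_mul, map_add, map_mul, pow_one,
      Matrix.one_apply, Matrix.one_apply, map_natCast]
    congr 1
    split_ifs <;> simp
  have hmul : ∀ a b, M (a * b) = M a * M b := by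
    intro a b
    apply hcm
    change c.mapMatrix (M (a * b)) = c.mapMatrix (M a * M b)
    rw [map_mul, hM, hM, hM, map_mul]
  have hone : M 1 = 1 := by
    apply hcm
    change c.mapMatrix (M 1) = c.mapMatrix 1
    rw [hM, map_one, map_one]
  let M' : H →* Matrix (Fin n) (Fin n) ℤ_[p] :=
    { toFun := M
      map_one' := hone
      map_mul' := hmul }
  let g : H →* GL (Fin n) ℤ_[p] := M'.toHomUnits
  have hg : ∀ h, g h ∈ cong p n 1 := by
    intro h
    rw [mem_cong]
    exact ⟨Matrix.of (x h), rfl⟩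
  have hgq : ∀ h i k, toQp p n (g.codRestrict _ hg h) i k =
      (((f h : Matrix (Fin n) (Fin n) ℚ) i k : ℚ) : ℚ_[p]) := by
    intro h i k
    exact congrArg (fun z : Matrix (Fin n) (Fin n) ℚ_[p] => z i k) (hM h)
  refine ⟨n, g.codRestrict _ hg, ?_, fun h i k => ⟨_, hgq h i k⟩⟩
  intro a b hab
  apply hf
  ext i k
  have h1 := hgq a i k
  rw [hab, hgq b i k] at h1
  exact_mod_cast h1.symm

/-- `G` maps to a group which is obtained from `H` by adjoining generators and finitely many relations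
whose exponents in the new generators are independent modulo `p` -/
def AdjoinP (p : ℕ) {H G : Type} [Group H] [Group G] (φ : H →* G) : Prop :=
  ∃ (Y R : Type) (_ : Finite R) (w : R → Coprod H (FreeGroup Y))
    (π : G →* Coprod H (FreeGroup Y) ⧸ Subgroup.normalClosure (Set.range w)),
    Indep (ZMod p) w ∧ ∀ h, π (φ h) = QuotientGroup.mk' _ (Coprod.inl h)

/-- **forests with edge groups in congruence subgroups** -/
theorem forest_level (C : ∀ (G : Type) [Group G], Prop) (hC : ClosedE C) (hL : ∀ n : ℕ, C (GL (Fin n) ℚ))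
    {V E : Type} {G : V → Type} [∀ v, Group (G v)] (hG : ∀ v, C (G v)) (s t : E → V)
    (H : E → Type) [∀ e, Group (H e)] (σ : ∀ e, H e →* G (s e)) (τ : ∀ e, H e →* G (t e))
    (hfor : IsForest s t)
    (hp : ∀ A : Finset E, ∃ (p : ℕ) (_ : Fact p.Prime), ∀ e ∈ A,
      InLevel p (H e) ∧ AdjoinP p (σ e) ∧ AdjoinP p (τ e)) :
    C (MX (fun e => (Monoid.CoprodI.of (i := t e)).comp (τ e))
      (fun e => (Monoid.CoprodI.of (i := s e)).comp (σ e))) := by
  classical
  apply forest_local C hC hL hG s t H σ τ hfor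
  intro F
  obtain ⟨p, hp', h1⟩ := hp (F.image fun z => z.1)
  have hext : ∀ {H G : Type} [Group H] [Group G] (φ : H →* G), AdjoinP p φ → Extends p φ := by
    intro H G _ _ φ h
    obtain ⟨Y, R, hR, w, π, hw, hπ⟩ := h
    exact extends_of_pres p w (indepP_of_zmod p w hw) φ π hπ
  refine ⟨p, hp', H, inferInstance, fun e => MonoidHom.id _, fun e => ?_, ?_⟩
  · rw [MonoidHom.range_eq_top.2 Function.surjective_id]
    exact le_top
  · rintro e ⟨h, he⟩
    obtain ⟨h2, h3, h4⟩ := h1 e (Finset.mem_image.2 ⟨⟨e, h⟩, he, rfl⟩)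
    exact ⟨Function.injective_id, hext _ h3, hext _ h4, inLevel_cong p _ h2⟩

end Pool.Agent.Helper38.NS
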