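import Pool.Agent.Helper38.NS.Descent

/-!
# Free groups in congruence subgroups

Owner helper38.
-/

set_option autoImplicit false

namespace Pool.Agent.Helper38.NS

open Matrix Monoid

section

variable {S : Type} [Fintype S] [DecidableEq S]

/-- row `s` has ones off the diagonal -/
def Em (A : Type) [CommRing A] (s : S) : Matrix S S A :=
  Matrix.of fun i j => if i = s ∧ j ≠ s then 1 else 0

theorem Em_mul (A : Type) [CommRing A] (s : S) : Em A s * Em A s = 0 := by
  ext i j
  rw [Matrix.mul_apply]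
  apply Finset.sum_eq_zero
  intro k _
  by_cases hk : k = s
  · simp [Em, hk]
  · simp [Em, hk]

/-- the transvection `1 + c E_s` -/
def tv (A : Type) [CommRing A] (s : S) (c : A) : GL S A where
  val := 1 + c • Em A s
  inv := 1 - c • Em A s
  val_inv := by
    rw [add_mul, mul_sub, mul_sub, one_mul, one_mul, mul_one, smul_mul_smul_comm, Em_mul, smul_zero]
    abel
  inv_val := by
    rw [sub_mul, mul_add, mul_add, one_mul, one_mul, mul_one, smul_mul_smul_comm, Em_mul, smul_zero]
    abel

theorem tv_add (A : Type) [CommRing A] (s : S) (c d : A) : tv A s (c + d) = tv A s c * tv A s d := by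
  apply Units.ext
  change 1 + (c + d) • Em A s = (1 + c • Em A s) * (1 + d • Em A s)
  rw [add_mul, mul_add, mul_add, one_mul, one_mul, mul_one, smul_mul_smul_comm, Em_mul, smul_zero,
    add_smul]
  abel

theorem tv_zpow (A : Type) [CommRing A] (s : S) (c : A) (k : ℤ) :
    tv A s c ^ k = tv A s (k * c) := by
  have h0 : tv A s 0 = 1 := by
    apply Units.ext
    change 1 + (0 : A) • Em A s = 1
    rw [zero_smul, add_zero]
  have hn : ∀ d : A, tv A s (-d) = (tv A s d)⁻¹ := by
    intro d
    rw [eq_inv_iff_mul_eq_one, ← tv_add, neg_add_cancel, h0]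
  have h1 : ∀ m : ℕ, tv A s c ^ m = tv A s (m * c) := by
    intro m
    induction m with
    | zero => simp [h0]
    | succ m ih => rw [pow_succ, ih, ← tv_add, Nat.cast_succ, add_mul, one_mul]
  cases k with
  | ofNat m => simpa using h1 m
  | negSucc m =>
    rw [zpow_negSucc, h1, ← hn]
    congr 1
    push_cast
    ring

theorem tv_mulVec (s : S) (c : ℤ) (v : S → ℤ) :
    (tv ℤ s c : Matrix S S ℤ).mulVec v = Function.update v s (v s + c * ∑ u ∈ Finset.univ.erase s, v u) := by
  ext i
  change ((1 + c • Em ℤ s : Matrix S S ℤ).mulVec v) i = _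
  rw [Matrix.add_mulVec, Matrix.one_mulVec, Matrix.smul_mulVec, Pi.add_apply, Pi.smul_apply,
    smul_eq_mul]
  by_cases hi : i = s
  · subst hi
    rw [Function.update_self]
    congr 2
    rw [Matrix.mulVec, dotProduct, ← Finset.sum_erase (Finset.univ : Finset S) (a := i)]
    · apply Finset.sum_congr rfl
      intro u hu
      simp [Em, Finset.ne_of_mem_erase hu]
    · simp [Em]
  · rw [Function.update_of_ne hi]
    have h : (Em ℤ s).mulVec v i = 0 := by
      rw [Matrix.mulVec, dotProduct]
      apply Finset.sum_eq_zero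
      intro u _
      simp [Em, hi]
    rw [h, mul_zero, add_zero]

/-- action on vectors -/
local instance : MulAction (GL S ℤ) (S → ℤ) where
  smul g v := (g : Matrix S S ℤ).mulVec v
  one_smul v := Matrix.one_mulVec v
  mul_smul g h v := by
    change ((g * h : GL S ℤ) : Matrix S S ℤ).mulVec v = _
    rw [Units.val_mul, ← Matrix.mulVec_mulVec]
    rfl

/-- the ping-pong domain -/
def dom (s : S) : Set (S → ℤ) := {v | 2 * ∑ u ∈ Finset.univ.erase s, |v u| < |v s|}

theorem dom_disj (s t : S) (hst : s ≠ t) : Disjoint (dom s) (dom t) := by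
  rw [Set.disjoint_left]
  intro v hs ht
  have h1 : |v t| ≤ ∑ u ∈ Finset.univ.erase s, |v u| :=
    Finset.single_le_sum (f := fun u => |v u|) (fun _ _ => abs_nonneg _)
      (Finset.mem_erase.2 ⟨Ne.symm hst, Finset.mem_univ _⟩)
  have h2 : |v s| ≤ ∑ u ∈ Finset.univ.erase t, |v u| :=
    Finset.single_le_sum (f := fun u => |v u|) (fun _ _ => abs_nonneg _)
      (Finset.mem_erase.2 ⟨hst, Finset.mem_univ _⟩)
  change 2 * ∑ u ∈ Finset.univ.erase s, |v u| < |v s| at hs
  change 2 * ∑ u ∈ Finset.univ.erase t, |v u| < |v t| at ht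
  have h3 := abs_nonneg (v s)
  have h4 := abs_nonneg (v t)
  linarith

theorem dom_ping (s t : S) (hst : s ≠ t) (c : ℤ) (hc : 8 ≤ |c|) (v : S → ℤ) (hv : v ∈ dom t) :
    tv ℤ s c • v ∈ dom s := by
  change 2 * ∑ u ∈ Finset.univ.erase t, |v u| < |v t| at hv
  have h0 : tv ℤ s c • v = Function.update v s (v s + c * ∑ u ∈ Finset.univ.erase s, v u) :=
    tv_mulVec s c v
  rw [h0]
  change 2 * ∑ u ∈ Finset.univ.erase s,
    |Function.update v s (v s + c * ∑ u ∈ Finset.univ.erase s, v u) u| <
      |Function.update v s (v s + c * ∑ u ∈ Finset.univ.erase s, v u) s|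
  rw [Function.update_self]
  have h1 : ∑ u ∈ Finset.univ.erase s,
      |Function.update v s (v s + c * ∑ u ∈ Finset.univ.erase s, v u) u| =
      ∑ u ∈ Finset.univ.erase s, |v u| := by
    apply Finset.sum_congr rfl
    intro u hu
    rw [Function.update_of_ne (Finset.ne_of_mem_erase hu)]
  rw [h1]
  have hts : t ∈ Finset.univ.erase s := Finset.mem_erase.2 ⟨Ne.symm hst, Finset.mem_univ _⟩
  have hst' : s ∈ Finset.univ.erase t := Finset.mem_erase.2 ⟨hst, Finset.mem_univ _⟩
  have h2 : ∑ u ∈ Finset.univ.erase s, v u = v t + ∑ u ∈ (Finset.univ.erase s).erase t, v u :=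
    (Finset.add_sum_erase _ _ hts).symm
  have h3 : ∑ u ∈ Finset.univ.erase s, |v u| = |v t| + ∑ u ∈ (Finset.univ.erase s).erase t, |v u| :=
    (Finset.add_sum_erase _ _ hts).symm
  have h4 : ∑ u ∈ Finset.univ.erase t, |v u| = |v s| + ∑ u ∈ (Finset.univ.erase s).erase t, |v u| := by
    rw [Finset.erase_right_comm]
    exact (Finset.add_sum_erase _ _ hst').symm
  have h5 : |∑ u ∈ (Finset.univ.erase s).erase t, v u| ≤ ∑ u ∈ (Finset.univ.erase s).erase t, |v u| :=
    Finset.abs_sum_le_sum_abs _ _
  have h6 : |v t| - ∑ u ∈ (Finset.univ.erase s).erase t, |v u| ≤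
      |∑ u ∈ Finset.univ.erase s, v u| := by
    rw [h2]
    have h7 : |v t| ≤ |v t + ∑ u ∈ (Finset.univ.erase s).erase t, v u| +
        |∑ u ∈ (Finset.univ.erase s).erase t, v u| := by
      have := abs_sub (v t + ∑ u ∈ (Finset.univ.erase s).erase t, v u)
        (∑ u ∈ (Finset.univ.erase s).erase t, v u)
      simpa using this
    linarith
  have h8 : 8 * |∑ u ∈ Finset.univ.erase s, v u| ≤ |c * ∑ u ∈ Finset.univ.erase s, v u| := by
    rw [abs_mul]
    exact mul_le_mul_of_nonneg_right hc (abs_nonneg _)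
  have h9 : |c * ∑ u ∈ Finset.univ.erase s, v u| ≤
      |v s + c * ∑ u ∈ Finset.univ.erase s, v u| + |v s| := by
    have := abs_sub (v s + c * ∑ u ∈ Finset.univ.erase s, v u) (v s)
    simpa using this
  have h10 := abs_nonneg (v s)
  have h11 : 0 ≤ ∑ u ∈ (Finset.univ.erase s).erase t, |v u| := Finset.sum_nonneg fun _ _ => abs_nonneg _
  linarith

/-- the matrices `1 + N E_s` generate a free group -/
theorem free_tv [Nontrivial S] (N : ℤ) (hN : 8 ≤ |N|) :
    Function.Injective (FreeGroup.lift fun s : S => tv ℤ s N) := by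
  have : FreeGroup.lift (fun s : S => tv ℤ s N) =
      (CoprodI.lift fun s : S => FreeGroup.lift fun _ : Unit => tv ℤ s N).comp
        (@freeGroupEquivCoprodI S).toMonoidHom := by
    ext i
    simp
  rw [this, MonoidHom.coe_comp]
  refine Function.Injective.comp ?_ (MulEquiv.injective freeGroupEquivCoprodI)
  apply CoprodI.lift_injective_of_ping_pong (fun s : S => FreeGroup.lift fun _ : Unit => tv ℤ s N) _ dom
  · intro s
    refine ⟨Pi.single s 1, ?_⟩
    change 2 * ∑ u ∈ Finset.univ.erase s, |(Pi.single s 1 : S → ℤ) u| < |(Pi.single s 1 : S → ℤ) s|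
    rw [Finset.sum_eq_zero]
    · simp
    · intro u hu
      rw [Pi.single_eq_of_ne (Finset.ne_of_mem_erase hu), abs_zero]
  · intro s t hst
    exact dom_disj s t hst
  · rintro s t hst
    refine FreeGroup.freeGroupUnitEquivInt.forall_congr_left.mpr ?_
    intro k hk
    have hk0 : k ≠ 0 := by
      rintro rfl
      apply hk
      simp [FreeGroup.freeGroupUnitEquivInt]
    rintro _ ⟨v, hv, rfl⟩
    have h1 : (FreeGroup.lift fun _ : Unit => tv ℤ s N) (FreeGroup.freeGroupUnitEquivInt.symm k) =
        tv ℤ s (k * N) := by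
      change FreeGroup.lift (fun _ => tv ℤ s N) (FreeGroup.of () ^ k) = _
      rw [map_zpow, FreeGroup.lift_apply_of, tv_zpow]
      rfl
    change (FreeGroup.lift fun _ : Unit => tv ℤ s N) (FreeGroup.freeGroupUnitEquivInt.symm k) • v ∈ _
    rw [h1]
    apply dom_ping s t hst _ _ v hv
    rw [abs_mul]
    have h2 : 1 ≤ |k| := Int.one_le_abs hk0
    nlinarith [abs_nonneg N]
  · right
    obtain ⟨s0⟩ : Nonempty S := inferInstance
    refine ⟨s0, ?_⟩
    rw [FreeGroup.freeGroupUnitEquivInt.cardinal_eq, Cardinal.mk_denumerable]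
    exact Cardinal.natCast_le_aleph0

end

/-- finitely generated free groups in the congruence subgroups -/
theorem free_cong (p : ℕ) [Fact p.Prime] (S : Type) [Finite S] :
    ∃ (n : ℕ) (f : FreeGroup S →* cong p n 1), Function.Injective f ∧
      ∀ x i j, ∃ q : ℚ, toQp p n (f x) i j = (q : ℚ_[p]) := by
  classical
  cases nonempty_fintype S
  let n := Fintype.card S + 2
  obtain ⟨j, hj⟩ : ∃ j : S → Fin n, Function.Injective j :=
    ⟨fun s => Fin.castAdd 2 (Fintype.equivFin S s), fun a b h =>
      (Fintype.equivFin S).injective (Fin.castAdd_injective _ _ h)⟩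
  let g : FreeGroup S →* GL (Fin n) ℤ :=
    (FreeGroup.lift fun s : Fin n => tv ℤ s (8 * p)).comp (FreeGroup.map j)
  have hg : Function.Injective g := by
    apply Function.Injective.comp _ (FreeGroup.map_injective hj)
    apply free_tv
    have h2 : (1 : ℤ) ≤ p := by
      have := (Fact.out : p.Prime).one_lt
      omega
    rw [abs_of_nonneg (by positivity)]
    linarith
  have hinj : Function.Injective (Int.castRingHom ℤ_[p]) := Int.cast_injective
  let h : FreeGroup S →* GL (Fin n) ℤ_[p] :=
    (GeneralLinearGroup.map (n := Fin n) (Int.castRingHom ℤ_[p])).comp g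
  have hh : Function.Injective h := by
    have h0 : Function.Injective
        (GeneralLinearGroup.map (n := Fin n) (Int.castRingHom ℤ_[p])) := by
      intro a b hab
      ext i k
      apply hinj
      exact congrArg (fun z : GL (Fin n) ℤ_[p] => z i k) hab
    exact h0.comp hg
  have hmem : ∀ x, h x ∈ cong p n 1 := by
    have h1 : h.range ≤ cong p n 1 := by
      rw [MonoidHom.range_eq_map, ← FreeGroup.closure_range_of, MonoidHom.map_closure,
        Subgroup.closure_le]
      rintro _ ⟨_, ⟨s, rfl⟩, rfl⟩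
      rw [SetLike.mem_coe, mem_cong]
      refine ⟨(8 : ℤ_[p]) • Em ℤ_[p] (j s), ?_⟩
      ext i k
      have h2 : h (FreeGroup.of s) = GeneralLinearGroup.map (n := Fin n) (Int.castRingHom ℤ_[p])
          (tv ℤ (j s) (8 * p)) := by
        simp [h, g]
      rw [h2]
      change Int.castRingHom ℤ_[p] ((1 + ((8 * p : ℤ)) • Em ℤ (j s) : Matrix (Fin n) (Fin n) ℤ) i k) = _
      rw [Matrix.add_apply, Matrix.add_apply, Matrix.smul_apply, Matrix.smul_apply, Matrix.smul_apply,
        smul_eq_mul, smul_eq_mul, smul_eq_mul, Matrix.one_apply, Matrix.one_apply]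
      simp only [Em, Matrix.of_apply]
      rw [eq_intCast]
      split_ifs <;> push_cast <;> ring
    intro x
    exact h1 ⟨x, rfl⟩
  refine ⟨n, h.codRestrict _ hmem, ?_, ?_⟩
  · intro a b hab
    exact hh (congrArg Subtype.val hab)
  · intro x i k
    refine ⟨((g x) i k : ℤ), ?_⟩
    change (((Int.castRingHom ℤ_[p]) ((g x) i k) : ℤ_[p]) : ℚ_[p]) = _
    push_cast
    simp

end Pool.Agent.Helper38.NS
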