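import Pool.Agent.Helper38.NS.Free
import Pool.Graph.R_seed8.Y110.FJ.Stm

/-!
# General linear groups of number fields

Owner helper38.
-/

set_option autoImplicit false

namespace Pool.Agent.Helper38.NS

open Matrix
open Pool.Agent.Y462.SS (Closed)

/-- restriction of scalars -/
theorem exists_embed (k : Type) [Field k] [NumberField k] (n : ℕ) :
    ∃ (m : ℕ) (f : GL (Fin n) k →* GL (Fin m) ℚ), Function.Injective f := by
  classical
  let d := Module.finrank ℚ k
  let b : Module.Basis (Fin d) ℚ k := Module.finBasis ℚ k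
  let φ : k →+* Matrix (Fin d) (Fin d) ℚ := (Algebra.leftMulMatrix b : k →+* Matrix (Fin d) (Fin d) ℚ)
  have hφ : Function.Injective φ := Algebra.leftMulMatrix_injective b
  let e : Fin n × Fin d ≃ Fin (n * d) := finProdFinEquiv
  let a : Matrix (Fin n × Fin d) (Fin n × Fin d) ℚ ≃ₐ[ℚ] Matrix (Fin (n * d)) (Fin (n * d)) ℚ :=
    Matrix.reindexAlgEquiv ℚ ℚ e
  let c : Matrix (Fin n) (Fin n) (Matrix (Fin d) (Fin d) ℚ) ≃+* Matrix (Fin n × Fin d) (Fin n × Fin d) ℚ :=
    Matrix.compRingEquiv (Fin n) (Fin d) ℚ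
  let ψ : Matrix (Fin n) (Fin n) k →+* Matrix (Fin (n * d)) (Fin (n * d)) ℚ :=
    (a.toRingEquiv.toRingHom).comp (c.toRingHom.comp (φ.mapMatrix))
  have hψ : Function.Injective ψ := by
    intro M N h
    have h1 : a (c (φ.mapMatrix M)) = a (c (φ.mapMatrix N)) := h
    have h2 := c.injective (a.injective h1)
    ext i j
    apply hφ
    exact congrArg (fun z : Matrix (Fin n) (Fin n) (Matrix (Fin d) (Fin d) ℚ) => z i j) h2
  refine ⟨n * d, Units.map (ψ : Matrix (Fin n) (Fin n) k →* Matrix (Fin (n * d)) (Fin (n * d)) ℚ), ?_⟩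
  exact Units.map_injective hψ

theorem nf_mem (C : ∀ (G : Type) [Group G], Prop) (hC : Closed C)
    (hL : ∀ n : ℕ, C (GL (Fin n) ℚ)) (k : Type) [Field k] [NumberField k] (n : ℕ) :
    C (GL (Fin n) k) := by
  obtain ⟨m, f, hf⟩ := exists_embed k n
  exact hC.of_injective _ _ f hf (hL m)

end Pool.Agent.Helper38.NS
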