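import Pool.Agent.Helper38.NS.Chain
import Pool.Graph.R_seed8.Y179.SS.Free

/-!
# Presentations

Owner helper38.
-/

set_option autoImplicit false

namespace Pool.Agent.Helper38.NS

open Matrix Monoid
open scoped TensorProduct DirectSum
open Pool.Agent.Y462.SS (Closed Wr)
open Pool.Agent.Y110.FJ (ClosedE)
open Pool.Agent.Y462.EI (MX cl)

theorem indepRelators_free (X : Type) : IndepRelators (FreeGroup X) := by
  refine ⟨X, Empty, inferInstance, Empty.elim, fun _ => ⟨1, fun j => j.elim⟩, ?_⟩
  have h : Subgroup.normalClosure (Set.range (Empty.elim : Empty → FreeGroup X)) = ⊥ := by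
    rw [eq_bot_iff]
    apply Subgroup.normalClosure_le_normal
    rintro _ ⟨j, _⟩
    exact j.elim
  exact ⟨(QuotientGroup.quotientBot.symm).trans (QuotientGroup.quotientMulEquivOfEq h.symm)⟩

section amalgam

variable {Z X Y J : Type}

/-- the words in `z` and `x` inside of the free group on `z`, `x`, `y` -/
def inZX : FreeGroup (Z ⊕ X) →* FreeGroup (Z ⊕ (X ⊕ Y)) :=
  FreeGroup.map (Sum.map id Sum.inl)

/-- the words in `z` and `y` inside of the free group on `z`, `x`, `y` -/
def inZY : FreeGroup (Z ⊕ Y) →* FreeGroup (Z ⊕ (X ⊕ Y)) :=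
  FreeGroup.map (Sum.map id Sum.inr)

/-- the relators `u_j(z, x) v_j(z, y)⁻¹` -/
def rels (u : J → FreeGroup (Z ⊕ X)) (v : J → FreeGroup (Z ⊕ Y)) : Set (FreeGroup (Z ⊕ (X ⊕ Y))) :=
  Set.range fun j => inZX (u j) * (inZY (v j))⁻¹

/-- The exponents of the generators `x` in the words `u_j(z, x)` are linearly independent vectors over
`ℚ`: arbitrary rational values at the `u_j` are taken by a homomorphism that kills all `z`. -/
def IndepIn (u : J → FreeGroup (Z ⊕ X)) : Prop :=
  ∀ c : J → ℚ, ∃ ψ : FreeGroup (Z ⊕ X) →* Multiplicative ℚ,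
    (∀ z, ψ (FreeGroup.of (Sum.inl z)) = 1) ∧ ∀ j, ψ (u j) = Multiplicative.ofAdd (c j)

/-- the edge group -/
def edgeHom (u : J → FreeGroup (Z ⊕ X)) : FreeGroup (Z ⊕ J) →* FreeGroup (Z ⊕ X) :=
  FreeGroup.lift (Sum.elim (fun z => FreeGroup.of (Sum.inl z)) u)

theorem ratInj_edgeHom (u : J → FreeGroup (Z ⊕ X)) (hu : IndepIn u) : RatInj (edgeHom u) := by
  intro χ
  let ψ0 : FreeGroup (Z ⊕ X) →* Multiplicative ℚ :=
    FreeGroup.lift (Sum.elim (fun z => χ (FreeGroup.of (Sum.inl z))) fun _ => 1)
  obtain ⟨ψ1, h1, h2⟩ := hu fun j =>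
    Multiplicative.toAdd (χ (FreeGroup.of (Sum.inr j))) - Multiplicative.toAdd (ψ0 (u j))
  refine ⟨ψ0 * ψ1, fun h => ?_⟩
  have h3 : (ψ0 * ψ1).comp (edgeHom u) = χ := by
    apply FreeGroup.ext_hom
    rintro (z | j)
    · change ψ0 (edgeHom u (FreeGroup.of _)) * ψ1 (edgeHom u (FreeGroup.of _)) = _
      rw [edgeHom, FreeGroup.lift_apply_of]
      change ψ0 (FreeGroup.of (Sum.inl z)) * ψ1 (FreeGroup.of (Sum.inl z)) = _
      rw [h1, mul_one]
      change FreeGroup.lift _ _ = _
      rw [FreeGroup.lift_apply_of]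
      rfl
    · change ψ0 (edgeHom u (FreeGroup.of _)) * ψ1 (edgeHom u (FreeGroup.of _)) = _
      rw [edgeHom, FreeGroup.lift_apply_of]
      change ψ0 (u j) * ψ1 (u j) = _
      rw [h2]
      apply Multiplicative.toAdd.injective
      rw [toAdd_mul, toAdd_ofAdd]
      ring
  exact DFunLike.congr_fun h3 h

/-- **presentations of amalgamated products** -/
theorem pres_amalgam (C : ∀ (G : Type) [Group G], Prop) (hC : ClosedE C)
    (hL : ∀ n : ℕ, C (GL (Fin n) ℚ)) (u : J → FreeGroup (Z ⊕ X)) (v : J → FreeGroup (Z ⊕ Y))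
    (hu : IndepIn u) (hv : IndepIn v) :
    C (FreeGroup (Z ⊕ (X ⊕ Y)) ⧸ Subgroup.normalClosure (rels u v)) := by
  classical
  let G : Bool → Type := fun b => FreeGroup (Z ⊕ (bif b then X else Y))
  letI : ∀ b, Group (G b) := fun b =>
    (inferInstance : Group (FreeGroup (Z ⊕ (bif b then X else Y))))
  let s : Unit → Bool := fun _ => true
  let t : Unit → Bool := fun _ => false
  let σ : ∀ e : Unit, FreeGroup (Z ⊕ J) →* G (s e) := fun _ => edgeHom u
  let τ : ∀ e : Unit, FreeGroup (Z ⊕ J) →* G (t e) := fun _ => edgeHom v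
  have hmem := forest_free C hC hL (V := Bool) (E := Unit) (G := G) (Q := G)
    (fun b => Pool.Agent.Y179.SS.t_free C hC.base _) (fun b => indepRelators_free _)
    (fun b => MonoidHom.id _) s t (fun _ => Z ⊕ J) σ τ (by
      rintro ⟨⟩ h
      have h1 : ∀ a b : Bool, Conn s t {e' : Unit | e' ≠ ()} a b → a = b := by
        intro a b hab
        induction hab with
        | rel a b hab =>
          obtain ⟨e, he, _⟩ := hab
          exact absurd rfl he
        | refl a => rfl
        | symm a b _ ih => exact ih.symm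
        | trans a b c _ _ ih1 ih2 => exact ih1.trans ih2
      exact Bool.noConfusion (h1 _ _ h)) (fun _ => ratInj_edgeHom u hu) (fun _ => ratInj_edgeHom v hv)
  let W := MX (fun e : Unit => (Monoid.CoprodI.of (M := G) (i := t e)).comp (τ e))
      (fun e => (Monoid.CoprodI.of (M := G) (i := s e)).comp (σ e))
  let ι : ∀ b, G b →* W := fun b => (MX.of _ _).comp (Monoid.CoprodI.of (M := G) (i := b))
  let e : W := MX.st _ _ ()
  have hrel : ∀ h : FreeGroup (Z ⊕ J), e * ι false (edgeHom v h) * e⁻¹ = ι true (edgeHom u h) := by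
    intro h
    rw [mul_inv_eq_iff_eq_mul]
    exact MX.rel (fun e : Unit => (Monoid.CoprodI.of (M := G) (i := t e)).comp (τ e))
      (fun e => (Monoid.CoprodI.of (M := G) (i := s e)).comp (σ e)) () h
  -- the map to `W`
  let F : FreeGroup (Z ⊕ (X ⊕ Y)) →* W := FreeGroup.lift (Sum.elim
    (fun z => ι true (FreeGroup.of (Sum.inl z))) (Sum.elim
      (fun x => ι true (FreeGroup.of (Sum.inr x)))
      (fun y => e * ι false (FreeGroup.of (Sum.inr y)) * e⁻¹)))
  have hF1 : F.comp inZX = ι true := by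
    apply FreeGroup.ext_hom
    rintro (z | x)
    · change F (FreeGroup.map _ (FreeGroup.of _)) = _
      rw [FreeGroup.map.of]
      change FreeGroup.lift _ _ = _
      rw [FreeGroup.lift_apply_of]
      rfl
    · change F (FreeGroup.map _ (FreeGroup.of _)) = _
      rw [FreeGroup.map.of]
      change FreeGroup.lift _ _ = _
      rw [FreeGroup.lift_apply_of]
      rfl
  have hF2 : F.comp inZY = (MulAut.conj e).toMonoidHom.comp (ι false) := by
    apply FreeGroup.ext_hom
    rintro (z | y)
    · change F (FreeGroup.map _ (FreeGroup.of _)) = e * ι false (FreeGroup.of (Sum.inl z)) * e⁻¹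
      rw [FreeGroup.map.of]
      change FreeGroup.lift _ _ = _
      rw [FreeGroup.lift_apply_of]
      have h1 := hrel (FreeGroup.of (Sum.inl z))
      simp only [edgeHom, FreeGroup.lift_apply_of] at h1
      exact h1.symm
    · change F (FreeGroup.map _ (FreeGroup.of _)) = e * ι false (FreeGroup.of (Sum.inr y)) * e⁻¹
      rw [FreeGroup.map.of]
      change FreeGroup.lift _ _ = _
      rw [FreeGroup.lift_apply_of]
      rfl
  have hker : Subgroup.normalClosure (rels u v) ≤ F.ker := by
    apply Subgroup.normalClosure_le_normal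
    rintro _ ⟨j, rfl⟩
    change F (inZX (u j) * (inZY (v j))⁻¹) = 1
    rw [map_mul, map_inv, mul_inv_eq_one]
    have h1 : F (inZX (u j)) = ι true (u j) := DFunLike.congr_fun hF1 _
    have h2 : F (inZY (v j)) = e * ι false (v j) * e⁻¹ := DFunLike.congr_fun hF2 _
    have h3 := hrel (FreeGroup.of (Sum.inr j))
    simp only [edgeHom, FreeGroup.lift_apply_of, Sum.elim_inr] at h3
    rw [h1, h2, h3]
  let q := QuotientGroup.mk' (Subgroup.normalClosure (rels u v))
  have hq : ∀ j, q (inZX (u j)) = q (inZY (v j)) := by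
    intro j
    have h1 : q (inZX (u j) * (inZY (v j))⁻¹) = 1 :=
      (QuotientGroup.eq_one_iff _).2 (Subgroup.subset_normalClosure ⟨j, rfl⟩)
    rwa [map_mul, map_inv, mul_inv_eq_one] at h1
  -- the retraction
  let g : ∀ b, G b →* FreeGroup (Z ⊕ (X ⊕ Y)) ⧸ Subgroup.normalClosure (rels u v) := fun b =>
    match b with
    | true => q.comp inZX
    | false => q.comp inZY
  have hg : ∀ (e : Unit) (h : FreeGroup (Z ⊕ J)), (1 : FreeGroup (Z ⊕ (X ⊕ Y)) ⧸ _) *
      Monoid.CoprodI.lift g ((Monoid.CoprodI.of (M := G) (i := t e)).comp (τ e) h) =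
      Monoid.CoprodI.lift g ((Monoid.CoprodI.of (M := G) (i := s e)).comp (σ e) h) * 1 := by
    intro e' h
    rw [one_mul, mul_one]
    change Monoid.CoprodI.lift g (Monoid.CoprodI.of (M := G) (i := false) (edgeHom v h)) =
      Monoid.CoprodI.lift g (Monoid.CoprodI.of (M := G) (i := true) (edgeHom u h))
    rw [Monoid.CoprodI.lift_of, Monoid.CoprodI.lift_of]
    change q (inZY (edgeHom v h)) = q (inZX (edgeHom u h))
    have h1 : q.comp (inZY.comp (edgeHom v)) = q.comp (inZX.comp (edgeHom u)) := by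
      apply FreeGroup.ext_hom
      rintro (z | j)
      · change q (inZY (edgeHom v (FreeGroup.of (Sum.inl z)))) =
          q (inZX (edgeHom u (FreeGroup.of (Sum.inl z))))
        simp only [edgeHom, FreeGroup.lift_apply_of, Sum.elim_inl, inZX, inZY, FreeGroup.map.of,
          Sum.map_inl, id]
      · change q (inZY (edgeHom v (FreeGroup.of (Sum.inr j)))) =
          q (inZX (edgeHom u (FreeGroup.of (Sum.inr j))))
        simp only [edgeHom, FreeGroup.lift_apply_of, Sum.elim_inr]
        exact (hq j).symm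
    exact DFunLike.congr_fun h1 h
  let ret : W →* FreeGroup (Z ⊕ (X ⊕ Y)) ⧸ Subgroup.normalClosure (rels u v) :=
    MX.lift _ _ (Monoid.CoprodI.lift g) (fun _ => 1) hg
  have hret1 : ∀ b (a : G b), ret (ι b a) = g b a := by
    intro b a
    change MX.lift _ _ (Monoid.CoprodI.lift g) (fun _ => 1) hg (MX.of _ _ (Monoid.CoprodI.of a)) = _
    rw [MX.lift_of, Monoid.CoprodI.lift_of]
  have hret2 : ret e = 1 := MX.lift_st _ _ (Monoid.CoprodI.lift g) (fun _ => 1) hg ()
  have hcomp : ret.comp (QuotientGroup.lift _ F hker) = MonoidHom.id _ := by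
    apply QuotientGroup.monoidHom_ext
    apply FreeGroup.ext_hom
    rintro (z | x | y)
    · change ret (F (FreeGroup.of (Sum.inl z))) = q (FreeGroup.of (Sum.inl z))
      simp only [F, FreeGroup.lift_apply_of, Sum.elim_inl]
      rw [hret1]
      change q (inZX (FreeGroup.of (Sum.inl z))) = _
      simp only [inZX, FreeGroup.map.of, Sum.map_inl, id]
    · change ret (F (FreeGroup.of (Sum.inr (Sum.inl x)))) = q (FreeGroup.of (Sum.inr (Sum.inl x)))
      simp only [F, FreeGroup.lift_apply_of, Sum.elim_inl, Sum.elim_inr]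
      rw [hret1]
      change q (inZX (FreeGroup.of (Sum.inr x))) = _
      simp only [inZX, FreeGroup.map.of, Sum.map_inr]
    · change ret (F (FreeGroup.of (Sum.inr (Sum.inr y)))) = q (FreeGroup.of (Sum.inr (Sum.inr y)))
      simp only [F, FreeGroup.lift_apply_of, Sum.elim_inr]
      rw [map_mul, map_mul, map_inv, hret2, hret1, one_mul, inv_one, mul_one]
      change q (inZY (FreeGroup.of (Sum.inr y))) = _
      simp only [inZY, FreeGroup.map.of, Sum.map_inr]
  refine hC.base.of_injective _ W (QuotientGroup.lift _ F hker) ?_ hmem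
  intro a b hab
  have h1 := congrArg ret hab
  have h2 : ∀ a, ret (QuotientGroup.lift _ F hker a) = a := fun a => DFunLike.congr_fun hcomp a
  rwa [h2, h2] at h1

end amalgam

end Pool.Agent.Helper38.NS
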