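import Pool.Agent.Helper38.NS.Pres

/-!
# Presentations of HNN extensions

Owner helper38.
-/

set_option autoImplicit false

namespace Pool.Agent.Helper38.NS

open Matrix Monoid
open scoped TensorProduct DirectSum
open Pool.Agent.Y462.SS (Closed Wr)
open Pool.Agent.Y110.FJ (ClosedE)
open Pool.Agent.Y462.EI (MX cl)

section hnn

variable {X J : Type}

/-- the exponent vector of a word -/
noncomputable def ev : FreeGroup X →* Multiplicative (X →₀ ℚ) :=
  FreeGroup.lift fun x => Multiplicative.ofAdd (Finsupp.single x 1)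

/-- the linear map with the exponent vectors of the words `u_j` as columns -/
noncomputable def expMap (u : J → FreeGroup X) : (J →₀ ℚ) →ₗ[ℚ] (X →₀ ℚ) :=
  Finsupp.linearCombination ℚ fun j => Multiplicative.toAdd (ev (u j))

/-- the relators `t u_j(x) t⁻¹ v_j(x)⁻¹` -/
def relsH (u v : J → FreeGroup X) : Set (FreeGroup (X ⊕ Unit)) :=
  Set.range fun j => FreeGroup.of (Sum.inr ()) * FreeGroup.map Sum.inl (u j) *
    (FreeGroup.of (Sum.inr ()))⁻¹ * (FreeGroup.map Sum.inl (v j))⁻¹

/-- from the homology of the free group to the exponent vectors -/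
noncomputable def h1ev : H1 (FreeGroup X) →ₗ[ℚ] (X →₀ ℚ) :=
  LinearMap.liftBaseChange ℚ
    ((MonoidHom.toAdditiveLeft (Abelianization.lift (ev (X := X)))).toIntLinearMap)

theorem h1ev_cls (x : FreeGroup X) : h1ev (Multiplicative.toAdd (cls x)) = Multiplicative.toAdd (ev x) := by
  change LinearMap.liftBaseChange ℚ _ ((1 : ℚ) ⊗ₜ[ℤ] Additive.ofMul (Abelianization.of x)) = _
  rw [LinearMap.liftBaseChange_tmul, one_smul]
  rfl

/-- **presentations of HNN extensions** -/
theorem pres_hnn (C : ∀ (G : Type) [Group G], Prop) (hC : ClosedE C)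
    (hL : ∀ n : ℕ, C (GL (Fin n) ℚ)) (u v : J → FreeGroup X)
    (hu : Function.Injective (expMap u)) (hv : Function.Injective (expMap v))
    (hW : ∀ W : Submodule ℚ (J →₀ ℚ), W.FG → W.map (expMap u) = W.map (expMap v) → W = ⊥) :
    C (FreeGroup (X ⊕ Unit) ⧸ Subgroup.normalClosure (relsH u v)) := by
  classical
  let G : Unit → Type := fun _ => FreeGroup X
  let s : Unit → Unit := fun _ => ()
  let σ : ∀ e : Unit, FreeGroup J →* G (s e) := fun _ => FreeGroup.lift v
  let τ : ∀ e : Unit, FreeGroup J →* G (s e) := fun _ => FreeGroup.lift u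
  -- comparison of the linear maps
  let B : Unit → Type := fun _ => J
  let re : (Σ e : Unit, B e) ≃ J :=
    { toFun := fun y => y.2
      invFun := fun j => ⟨(), j⟩
      left_inv := fun _ => rfl
      right_inv := fun _ => rfl }
  let Lr : ((Σ e : Unit, B e) →₀ ℚ) ≃ₗ[ℚ] (J →₀ ℚ) := Finsupp.domLCongr re
  have hLr : ∀ (y : Σ e : Unit, B e), Lr (Finsupp.single y 1) = Finsupp.single y.2 1 := fun y =>
    Finsupp.domLCongr_single re y 1
  let lam : (⨁ _ : Unit, H1 (FreeGroup X)) →ₗ[ℚ] (X →₀ ℚ) :=
    DirectSum.toModule ℚ Unit _ fun _ => h1ev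
  have hcmp : ∀ (w : J → FreeGroup X) (a : (Σ e : Unit, B e) →₀ ℚ),
      lam (endMap (G := G) (Q := G) (fun _ => MonoidHom.id _) B s
        (fun _ => (FreeGroup.lift w : FreeGroup J →* FreeGroup X)) a) =
      expMap w (Lr a) := by
    intro w a
    have h1 : lam.comp (endMap (G := G) (Q := G) (fun _ => MonoidHom.id _) B s
        (fun _ => (FreeGroup.lift w : FreeGroup J →* FreeGroup X))) =
      (expMap w).comp Lr.toLinearMap := by
      apply Finsupp.lhom_ext'
      rintro ⟨⟨⟩, j⟩
      apply LinearMap.ext_ring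
      change lam (endMap (G := G) (Q := G) (fun _ => MonoidHom.id _) B s
        (fun _ => (FreeGroup.lift w : FreeGroup J →* FreeGroup X)) (Finsupp.single _ 1)) =
        expMap w (Lr (Finsupp.single _ 1))
      rw [hLr, expMap, Finsupp.linearCombination_single, one_smul, endMap,
        Finsupp.linearCombination_single, one_smul]
      change DirectSum.toModule ℚ Unit _ (fun _ => h1ev) (DirectSum.lof ℚ Unit _ _ _) = _
      rw [DirectSum.toModule_lof]
      change h1ev (Multiplicative.toAdd (cls (FreeGroup.lift w (FreeGroup.of j)))) = _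
      rw [h1ev_cls, FreeGroup.lift_apply_of]
    exact LinearMap.congr_fun h1 a
  have hinj : ∀ w : J → FreeGroup X, Function.Injective (expMap w) →
      Function.Injective (endMap (G := G) (Q := G) (fun _ => MonoidHom.id _) B s
        (fun _ => (FreeGroup.lift w : FreeGroup J →* FreeGroup X))) := by
    intro w hw a b hab
    apply Lr.injective
    apply hw
    rw [← hcmp, ← hcmp, hab]
  have hmem := crit C hC hL (V := Unit) (E := Unit) (G := G) (Q := G)
    (fun _ => Pool.Agent.Y179.SS.t_free C hC.base _) (fun _ => indepRelators_free _)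
    (fun _ => MonoidHom.id _) s s B σ τ
    (ctrl_of_noW (fun _ => MonoidHom.id _) B s s σ τ (hinj v hv) (hinj u hu) (by
      intro W hWfg hWm
      have h1 : ∀ w : J → FreeGroup X, (W.map (endMap (G := G) (Q := G) (fun _ => MonoidHom.id _) B s
          (fun _ => (FreeGroup.lift w : FreeGroup J →* FreeGroup X)))).map lam =
          (W.map Lr.toLinearMap).map (expMap w) := by
        intro w
        rw [← Submodule.map_comp, ← Submodule.map_comp]
        congr 1
        exact LinearMap.ext (hcmp w)
      have h2 := hW (W.map Lr.toLinearMap) (hWfg.map _) (by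
        rw [← h1 u, ← h1 v]
        exact (congrArg (fun Z => Submodule.map lam Z) hWm).symm)
      rw [eq_bot_iff]
      intro a ha
      have h3 : Lr a = 0 := by
        have h4 : Lr a ∈
            (W.map Lr.toLinearMap) :=
          Submodule.mem_map_of_mem ha
        rw [h2] at h4
        exact (Submodule.mem_bot ℚ).1 h4
      rw [Submodule.mem_bot]
      exact (LinearEquiv.map_eq_zero_iff _).1 h3))
  let W := MX (fun e : Unit => (Monoid.CoprodI.of (M := G) (i := s e)).comp (τ e))
      (fun e => (Monoid.CoprodI.of (M := G) (i := s e)).comp (σ e))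
  let ι : FreeGroup X →* W := (MX.of _ _).comp (Monoid.CoprodI.of (M := G) (i := ()))
  let e : W := MX.st _ _ ()
  have hrel : ∀ h : FreeGroup J, e * ι (FreeGroup.lift u h) * e⁻¹ = ι (FreeGroup.lift v h) := by
    intro h
    rw [mul_inv_eq_iff_eq_mul]
    exact MX.rel (fun e : Unit => (Monoid.CoprodI.of (M := G) (i := s e)).comp (τ e))
      (fun e => (Monoid.CoprodI.of (M := G) (i := s e)).comp (σ e)) () h
  let F : FreeGroup (X ⊕ Unit) →* W :=
    FreeGroup.lift (Sum.elim (fun x => ι (FreeGroup.of x)) fun _ => e)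
  have hF1 : ∀ x, F (FreeGroup.map Sum.inl x) = ι x := by
    intro x
    have h1 : F.comp (FreeGroup.map Sum.inl) = ι := by
      apply FreeGroup.ext_hom
      intro x
      change F (FreeGroup.map Sum.inl (FreeGroup.of x)) = _
      rw [FreeGroup.map.of]
      change FreeGroup.lift _ _ = _
      rw [FreeGroup.lift_apply_of]
      rfl
    exact DFunLike.congr_fun h1 x
  have hF2 : F (FreeGroup.of (Sum.inr ())) = e := by
    change FreeGroup.lift _ _ = _
    rw [FreeGroup.lift_apply_of]
    rfl
  have hker : Subgroup.normalClosure (relsH u v) ≤ F.ker := by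
    apply Subgroup.normalClosure_le_normal
    rintro _ ⟨j, rfl⟩
    change F (FreeGroup.of (Sum.inr ()) * FreeGroup.map Sum.inl (u j) *
      (FreeGroup.of (Sum.inr ()))⁻¹ * (FreeGroup.map Sum.inl (v j))⁻¹) = 1
    have h3 := hrel (FreeGroup.of j)
    simp only [FreeGroup.lift_apply_of] at h3
    rw [map_mul, map_mul, map_mul, map_inv, map_inv, hF1, hF1, hF2, h3, mul_inv_cancel]
  let q := QuotientGroup.mk' (Subgroup.normalClosure (relsH u v))
  have hq : ∀ j, q (FreeGroup.of (Sum.inr ())) * q (FreeGroup.map Sum.inl (u j)) =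
      q (FreeGroup.map Sum.inl (v j)) * q (FreeGroup.of (Sum.inr ())) := by
    intro j
    have h1 : q (FreeGroup.of (Sum.inr ()) * FreeGroup.map Sum.inl (u j) *
      (FreeGroup.of (Sum.inr ()))⁻¹ * (FreeGroup.map Sum.inl (v j))⁻¹) = 1 :=
      (QuotientGroup.eq_one_iff _).2 (Subgroup.subset_normalClosure ⟨j, rfl⟩)
    rw [map_mul, map_mul, map_mul, map_inv, map_inv, mul_inv_eq_one, mul_inv_eq_iff_eq_mul] at h1
    exact h1
  let g : ∀ b, G b →* FreeGroup (X ⊕ Unit) ⧸ Subgroup.normalClosure (relsH u v) := fun _ =>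
    q.comp (FreeGroup.map Sum.inl)
  have hg : ∀ (e : Unit) (h : FreeGroup J), q (FreeGroup.of (Sum.inr ())) *
      Monoid.CoprodI.lift g ((Monoid.CoprodI.of (M := G) (i := s e)).comp (τ e) h) =
      Monoid.CoprodI.lift g ((Monoid.CoprodI.of (M := G) (i := s e)).comp (σ e) h) *
        q (FreeGroup.of (Sum.inr ())) := by
    intro e' h
    change q (FreeGroup.of (Sum.inr ())) *
      Monoid.CoprodI.lift g (Monoid.CoprodI.of (M := G) (i := ()) (FreeGroup.lift u h)) =
      Monoid.CoprodI.lift g (Monoid.CoprodI.of (M := G) (i := ()) (FreeGroup.lift v h)) * _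
    rw [Monoid.CoprodI.lift_of, Monoid.CoprodI.lift_of, ← mul_inv_eq_iff_eq_mul]
    have h1 : (MulAut.conj (q (FreeGroup.of (Sum.inr ())))).toMonoidHom.comp
        ((q.comp (FreeGroup.map Sum.inl)).comp (FreeGroup.lift u)) =
        (q.comp (FreeGroup.map Sum.inl)).comp (FreeGroup.lift v) := by
      apply FreeGroup.ext_hom
      intro j
      change q (FreeGroup.of (Sum.inr ())) * q (FreeGroup.map Sum.inl (FreeGroup.lift u (FreeGroup.of j))) *
        (q (FreeGroup.of (Sum.inr ())))⁻¹ = q (FreeGroup.map Sum.inl (FreeGroup.lift v (FreeGroup.of j)))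
      rw [mul_inv_eq_iff_eq_mul, FreeGroup.lift_apply_of, FreeGroup.lift_apply_of]
      exact hq j
    exact DFunLike.congr_fun h1 h
  let ret : W →* FreeGroup (X ⊕ Unit) ⧸ Subgroup.normalClosure (relsH u v) :=
    MX.lift _ _ (Monoid.CoprodI.lift g) (fun _ => q (FreeGroup.of (Sum.inr ()))) hg
  have hret1 : ∀ a : FreeGroup X, ret (ι a) = q (FreeGroup.map Sum.inl a) := by
    intro a
    change MX.lift _ _ (Monoid.CoprodI.lift g) _ hg (MX.of _ _ (Monoid.CoprodI.of (M := G) (i := ()) a)) = _
    rw [MX.lift_of, Monoid.CoprodI.lift_of]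
    rfl
  have hret2 : ret e = q (FreeGroup.of (Sum.inr ())) := MX.lift_st _ _ (Monoid.CoprodI.lift g) _ hg ()
  have hcomp : ret.comp (QuotientGroup.lift _ F hker) = MonoidHom.id _ := by
    apply QuotientGroup.monoidHom_ext
    apply FreeGroup.ext_hom
    rintro (x | ⟨⟩)
    · change ret (F (FreeGroup.of (Sum.inl x))) = q (FreeGroup.of (Sum.inl x))
      have h1 : (FreeGroup.of (Sum.inl x) : FreeGroup (X ⊕ Unit)) =
        FreeGroup.map Sum.inl (FreeGroup.of x) := by rw [FreeGroup.map.of]
      rw [h1, hF1, hret1]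
    · change ret (F (FreeGroup.of (Sum.inr ()))) = q (FreeGroup.of (Sum.inr ()))
      rw [hF2, hret2]
  refine hC.base.of_injective _ W (QuotientGroup.lift _ F hker) ?_ hmem
  intro a b hab
  have h1 := congrArg ret hab
  have h2 : ∀ a, ret (QuotientGroup.lift _ F hker a) = a := fun a => DFunLike.congr_fun hcomp a
  rwa [h2, h2] at h1

end hnn

end Pool.Agent.Helper38.NS
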